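import Pool.Agent.Lib.MP_2eb2b4_co.Tab

/-!
Kernel check of the potential for one transition of the window state.
-/

namespace Pool.Agent.Lib.MP_2eb2b4_co

lemma check_13 : check2 1 3 := by
  intro lk hk rk hr l0
  interval_cases lk <;> interval_cases rk <;> cases l0 <;> decide +kernel

end Pool.Agent.Lib.MP_2eb2b4_co
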