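import Pool.Agent.Lib.MP_2eb2b4_co.Row
import Pool.Agent.Lib.MP_2eb2b4_co.Chk20
import Pool.Agent.Lib.MP_2eb2b4_co.Chk31
import Pool.Agent.Lib.MP_2eb2b4_co.Chk01
import Pool.Agent.Lib.MP_2eb2b4_co.Chk12
import Pool.Agent.Lib.MP_2eb2b4_co.Chk13

/-!
One step of the potential inequality: from an impure row to the row above it.
-/

namespace Pool.Agent.Lib.MP_2eb2b4_co

open Finset

lemma pot_UU (s lk : ℕ) (p : ℕ → Bool) (n : ℕ) : pot s lk (n + 3) (UU p (n + 3))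
    = ∑ i ∈ Ico 2 n, zz p i + tb s lk ((n + 3 + 2 + 2 * lk) % 3)
      (b3 (nr (p 0) (p 1)) (nr (p 1) (p 2)) (nr (p 2) (p 3)))
      (b3 (nr (p n) (p (n + 1))) (nr (p (n + 1)) (p (n + 2))) (nr (p (n + 2)) (p (n + 3))))
      (ph (UU p (n + 3)) (n + 3)) := by
  rw [pot, Pm_UU, show n + 3 - 3 = n from rfl, show n + 3 - 2 = n + 1 from rfl,
    show n + 3 - 1 = n + 2 from rfl]
  simp only [UU, show 0 < n + 3 by omega, show 1 < n + 3 by omega, show 2 < n + 3 by omega,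
    show n < n + 3 by omega, show n + 1 < n + 3 by omega, show n + 2 < n + 3 by omega,
    decide_true, Bool.true_and]

lemma tb_UU {s lk rk A B : ℕ} (hs : s < 4) (hk : lk < 3) (hr : rk < 3) (hA : A < 8) (hB : B < 8)
    (p : ℕ → Bool) {n : ℕ} (hn : 2 ≤ n) :
    tb s lk rk A B (min 2 (oo p 1 + oo p n + qq p n
      + (2 * ∑ i ∈ Ico 2 n, oo p i + ∑ i ∈ Ico 2 n, qq p i)))
      ≤ tb s lk rk A B (ph (UU p (n + 3)) (n + 3)) := by
  have := Zm_UU p hn
  rw [ph, if_neg (by omega)]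
  exact tb_ph s hs lk hk rk hr A hA B hB _ (by omega) _ (by omega)

lemma mid_zero {f : ℕ → ℕ} {n i : ℕ} (h : ∑ i ∈ Ico 2 n, f i = 0) (h1 : 2 ≤ i) (h2 : i < n) :
    f i = 0 := sum_eq_zero_iff.1 h i (mem_Ico.2 ⟨h1, h2⟩)

lemma long1 {s s' lk n : ℕ} (hc : check1 s s') (hs' : s' < 4) (hk : lk < 3) (hn : 2 ≤ n)
    {p : ℕ → Bool} (hp : ¬ ∃ k < 3, Pure p (n + 4) k) {Low : ℤ}
    (hI : 2 ≤ 2 * Low + pot s lk (n + 4) p) :
    2 ≤ 2 * (Low + (cnt p (n + 4) - ((n + 4 + 2 - lk) / 3 : ℕ)))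
      + pot s' ((lk + 1) % 3) (n + 3) (UU p (n + 3)) := by
  have h := hc lk hk ((n + 4 + 2 + 2 * lk) % 3) (Nat.mod_lt _ (by norm_num))
    (p 0) (p 1) (p 2) (p 3) (p n) (p (n + 1)) (p (n + 2)) (p (n + 3))
  have e := cnt_eq p n
  rw [sum_split _ hn, sum_split _ hn, sum_split _ hn] at e
  have e2 : cnt p (n + 4) = cnt p n + ((p n).toNat + (p (n + 1)).toNat + (p (n + 2)).toNat
      + (p (n + 3)).toNat) := by
    simp only [cnt, sum_range_succ]; omega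
  rw [pot, ph, if_neg (by omega), Pm, Zm, show n + 4 - 3 = n + 1 from rfl,
    show n + 4 - 2 = n + 2 from rfl, show n + 4 - 1 = n + 3 from rfl, sum_Ico_succ_top hn,
    sum_Ico_succ_top (by omega : 1 ≤ n), sum_eq_sum_Ico_succ_bot (by omega : 1 < n),
    show zz p 1 + ∑ i ∈ Ico (1 + 1) n, zz p i + zz p n
      = zz p 1 + zz p n + ∑ i ∈ Ico 2 n, zz p i from add_right_comm _ _ _] at hI
  have u := h.use (o := ∑ i ∈ Ico 2 n, oo p i) (q := ∑ i ∈ Ico 2 n, qq p i)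
    (z := ∑ i ∈ Ico 2 n, zz p i) (c := cnt p (n + 4) - ((n + 4 + 2 - lk) / 3 : ℕ)) (Low := Low)
    ?_ ?_ hI
  · have v := tb_UU hs' (Nat.mod_lt (lk + 1) (by norm_num))
      (Nat.mod_lt ((n + 4 + 2 + 2 * lk) % 3 + 1) (by norm_num))
      (b3_lt (nr (p 0) (p 1)) (nr (p 1) (p 2)) (nr (p 2) (p 3)))
      (b3_lt (nr (p n) (p (n + 1))) (nr (p (n + 1)) (p (n + 2))) (nr (p (n + 2)) (p (n + 3)))) p hn
    rw [pot_UU, show (n + 3 + 2 + 2 * ((lk + 1) % 3)) % 3 = ((n + 4 + 2 + 2 * lk) % 3 + 1) % 3 by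
      omega]
    exact u.trans (by gcongr; exact v)
  · simp only [oo, qq, zz, Nat.reduceAdd] at e ⊢
    omega
  · intro h0
    refine hp (pure_of_regular (by omega) fun i hi => ?_)
    have a : ∀ i, i + 2 < n + 4 → oo p i = 0 ∧ zz p i = 0 := by
      intro i hi
      obtain rfl | rfl | c | rfl | rfl : i = 0 ∨ i = 1 ∨ (2 ≤ i ∧ i < n) ∨ i = n ∨ i = n + 1 := by
        omega
      all_goals first
        | exact ⟨mid_zero (by omega) c.1 c.2, mid_zero (by omega) c.1 c.2⟩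
        | (simp only [oo, zz, add_assoc, Nat.reduceAdd]; omega)
    have b : ∀ i, i + 1 < n + 4 → qq p i = 0 := by
      intro i hi
      obtain rfl | rfl | c | rfl | rfl | rfl :
        i = 0 ∨ i = 1 ∨ (2 ≤ i ∧ i < n) ∨ i = n ∨ i = n + 1 ∨ i = n + 2 := by omega
      all_goals first
        | exact mid_zero (by omega) c.1 c.2
        | (simp only [qq, add_assoc, Nat.reduceAdd]; omega)
    exact ⟨(a i hi).1, b i (by omega), b (i + 1) (by omega), (a i hi).2⟩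

lemma long2 {s s' lk n : ℕ} (hc : check2 s s') (hs' : s' < 4) (hk : lk < 3) (hn : 2 ≤ n)
    {p : ℕ → Bool} (hp : ¬ ∃ k < 3, Pure p (n + 5) k) {Low : ℤ}
    (hI : 2 ≤ 2 * Low + pot s lk (n + 5) p) :
    2 ≤ 2 * (Low + (cnt p (n + 5) - ((n + 5 + 2 - lk) / 3 : ℕ)))
      + pot s' ((lk + 1) % 3) (n + 3) (UU p (n + 3)) := by
  have h := hc lk hk ((n + 5 + 2 + 2 * lk) % 3) (Nat.mod_lt _ (by norm_num))
    (p 0) (p 1) (p 2) (p 3) (p n) (p (n + 1)) (p (n + 2)) (p (n + 3)) (p (n + 4))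
  have e := cnt_eq p n
  rw [sum_split _ hn, sum_split _ hn, sum_split _ hn] at e
  have e2 : cnt p (n + 5) = cnt p n + ((p n).toNat + (p (n + 1)).toNat + (p (n + 2)).toNat
      + (p (n + 3)).toNat + (p (n + 4)).toNat) := by
    simp only [cnt, sum_range_succ]; omega
  rw [pot, ph, if_neg (by omega), Pm, Zm, show n + 5 - 3 = n + 1 + 1 from rfl,
    show n + 5 - 2 = n + 3 from rfl, show n + 5 - 1 = n + 4 from rfl,
    sum_Ico_succ_top (by omega : 2 ≤ n + 1), sum_Ico_succ_top hn,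
    sum_Ico_succ_top (by omega : 1 ≤ n + 1),
    sum_Ico_succ_top (by omega : 1 ≤ n), sum_eq_sum_Ico_succ_bot (by omega : 1 < n),
    show zz p 1 + ∑ i ∈ Ico (1 + 1) n, zz p i + zz p n + zz p (n + 1)
      = zz p 1 + zz p n + zz p (n + 1) + ∑ i ∈ Ico 2 n, zz p i by
        rw [show 1 + 1 = 2 from rfl]; omega, add_assoc _ (qq p n)] at hI
  have u := h.use (o := ∑ i ∈ Ico 2 n, oo p i) (q := ∑ i ∈ Ico 2 n, qq p i)
    (z := ∑ i ∈ Ico 2 n, zz p i) (c := cnt p (n + 5) - ((n + 5 + 2 - lk) / 3 : ℕ)) (Low := Low)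
    ?_ ?_ hI
  · have v := tb_UU hs' (Nat.mod_lt (lk + 1) (by norm_num))
      (Nat.mod_lt (n + 5 + 2 + 2 * lk) (by norm_num))
      (b3_lt (nr (p 0) (p 1)) (nr (p 1) (p 2)) (nr (p 2) (p 3)))
      (b3_lt (nr (p n) (p (n + 1))) (nr (p (n + 1)) (p (n + 2))) (nr (p (n + 2)) (p (n + 3)))) p hn
    rw [pot_UU, show (n + 3 + 2 + 2 * ((lk + 1) % 3)) % 3 = (n + 5 + 2 + 2 * lk) % 3 by omega]
    exact u.trans (by gcongr; exact v)
  · simp only [oo, qq, zz, Nat.reduceAdd] at e ⊢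
    omega
  · intro h0
    refine hp (pure_of_regular (by omega) fun i hi => ?_)
    have a : ∀ i, i + 2 < n + 5 → oo p i = 0 ∧ zz p i = 0 := by
      intro i hi
      obtain rfl | rfl | c | rfl | rfl | rfl :
        i = 0 ∨ i = 1 ∨ (2 ≤ i ∧ i < n) ∨ i = n ∨ i = n + 1 ∨ i = n + 2 := by omega
      all_goals first
        | exact ⟨mid_zero (by omega) c.1 c.2, mid_zero (by omega) c.1 c.2⟩
        | (simp only [oo, zz, add_assoc, Nat.reduceAdd]; omega)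
    have b : ∀ i, i + 1 < n + 5 → qq p i = 0 := by
      intro i hi
      obtain rfl | rfl | c | rfl | rfl | rfl | rfl :
        i = 0 ∨ i = 1 ∨ (2 ≤ i ∧ i < n) ∨ i = n ∨ i = n + 1 ∨ i = n + 2 ∨ i = n + 3 := by omega
      all_goals first
        | exact mid_zero (by omega) c.1 c.2
        | (simp only [qq, add_assoc, Nat.reduceAdd]; omega)
    exact ⟨(a i hi).1, b i (by omega), b (i + 1) (by omega), (a i hi).2⟩

/-- The step inequality for a short row given by its binary code. -/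
def shortOK (s s' d L m : ℕ) : Prop :=
  ∀ lk < 3, (¬ ∃ k < 3, Pure m.testBit L k) →
    pot s lk L m.testBit / 2 * 2 + 2 * ((L + 2 - lk) / 3)
      ≤ 2 * cnt m.testBit L + pot s' ((lk + 1) % 3) (L - d) (UU m.testBit (L - d))

instance (s s' d L m : ℕ) : Decidable (shortOK s s' d L m) := by unfold shortOK; infer_instance

/-- The transitions of the window state, with the step size. -/
def Tr (s s' d : ℕ) : Prop :=
  (s = 2 ∧ s' = 0 ∧ d = 1) ∨ (s = 3 ∧ s' = 1 ∧ d = 1) ∨ (s = 0 ∧ s' = 1 ∧ d = 2)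
    ∨ (s = 1 ∧ s' = 2 ∧ d = 2) ∨ (s = 1 ∧ s' = 3 ∧ d = 2)

lemma short_all {s s' d : ℕ} (h : Tr s s' d) : ∀ L < d + 5, ∀ m < 2 ^ L, shortOK s s' d L m := by
  rcases h with ⟨rfl, rfl, rfl⟩ | ⟨rfl, rfl, rfl⟩ | ⟨rfl, rfl, rfl⟩ | ⟨rfl, rfl, rfl⟩
    | ⟨rfl, rfl, rfl⟩ <;> decide +kernel

theorem step {s s' d lk L : ℕ} (h : Tr s s' d) (hk : lk < 3) (hd : d ≤ L) {p q : ℕ → Bool}
    (h0 : ∀ i, L ≤ i → p i = false) (hp : ¬ ∃ k < 3, Pure p L k)
    (hq : ∀ i < L - d, p i = true ∨ p (i + 1) = true ∨ q i = true) {Low : ℤ}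
    (hI : 2 ≤ 2 * Low + pot s lk L p) :
    2 ≤ 2 * (Low + (cnt p L - ((L + 2 - lk) / 3 : ℕ))) + pot s' ((lk + 1) % 3) (L - d) q := by
  have hs' : s' < 4 := by unfold Tr at h; omega
  have mono : pot s' ((lk + 1) % 3) (L - d) (UU p (L - d)) ≤ pot s' ((lk + 1) % 3) (L - d) q := by
    refine pot_mono hs' (Nat.mod_lt _ (by norm_num)) fun i => ?_
    by_cases hi : i < L - d
    · have := hq i hi
      revert this
      simp only [UU, hi, decide_true, Bool.true_and]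
      generalize p i = x, p (i + 1) = y, q i = z
      revert x y z
      decide
    · simp [UU, hi]
  suffices H : 2 ≤ 2 * (Low + (cnt p L - ((L + 2 - lk) / 3 : ℕ)))
      + pot s' ((lk + 1) % 3) (L - d) (UU p (L - d)) by omega
  clear mono hq
  by_cases hL : L < d + 5
  · obtain ⟨m, hm, rfl⟩ : ∃ m < 2 ^ L, p = m.testBit := by
      refine ⟨Nat.ofBits fun i : Fin L => p i, Nat.ofBits_lt_two_pow _, funext fun i => ?_⟩
      by_cases hi : i < L
      · rw [Nat.testBit_ofBits_lt _ _ hi]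
      · rw [Nat.testBit_ofBits_ge _ _ (by omega), h0 i (by omega)]
    have := short_all h L hL m hm lk hk hp
    omega
  obtain ⟨n, rfl⟩ : ∃ n, L = n + 3 + d := ⟨L - 3 - d, by omega⟩
  rw [Nat.add_sub_cancel]
  rcases h with ⟨rfl, rfl, rfl⟩ | ⟨rfl, rfl, rfl⟩ | ⟨rfl, rfl, rfl⟩ | ⟨rfl, rfl, rfl⟩
    | ⟨rfl, rfl, rfl⟩
  all_goals simp only [add_assoc n 3, Nat.reduceAdd] at hp hI ⊢
  · exact long1 check_20 hs' hk (by omega) hp hI
  · exact long1 check_31 hs' hk (by omega) hp hI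
  · exact long2 check_01 hs' hk (by omega) hp hI
  · exact long2 check_12 hs' hk (by omega) hp hI
  · exact long2 check_13 hs' hk (by omega) hp hI

end Pool.Agent.Lib.MP_2eb2b4_co
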