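import Pool.Agent.Lib.MP_2eb2b4_co.Count
import Pool.Agent.Lib.MP_2eb2b4_co.Step

/-!
The lower bound for hitting sets of the triangles in the lattice region 2^i 3^j ≤ M.
-/

namespace Pool.Agent.Lib.MP_2eb2b4_co

open Finset

/-- The position of M relative to the end of row j, which has length L. -/
def Win (M j L s : ℕ) : Prop :=
  (s = 0 ∧ 16 * (2 ^ L * 3 ^ j) ≤ 32 * M ∧ 32 * M < 18 * (2 ^ L * 3 ^ j))
    ∨ (s = 1 ∧ 18 * (2 ^ L * 3 ^ j) ≤ 32 * M ∧ 32 * M < 24 * (2 ^ L * 3 ^ j))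
    ∨ (s = 2 ∧ 24 * (2 ^ L * 3 ^ j) ≤ 32 * M ∧ 32 * M < 27 * (2 ^ L * 3 ^ j))
    ∨ (s = 3 ∧ 27 * (2 ^ L * 3 ^ j) ≤ 32 * M ∧ 32 * M < 32 * (2 ^ L * 3 ^ j))

lemma Win.lt {M j L s : ℕ} (h : Win M j L s) : s < 4 := by unfold Win at h; omega

lemma Win.cell {M j L s : ℕ} (h : Win M j L s) (i : ℕ) : 2 ^ i * 3 ^ j ≤ M ↔ i < L := by
  have a : 2 ^ L * 3 ^ j ≤ 2 * M ∧ M < 2 ^ L * 3 ^ j := by unfold Win at h; omega
  constructor
  · intro hi
    by_contra c
    have : 2 ^ L * 3 ^ j ≤ 2 ^ i * 3 ^ j :=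
      Nat.mul_le_mul_right _ (Nat.pow_le_pow_right (by norm_num) (by omega))
    omega
  · intro hi
    have : 2 ^ (i + 1) * 3 ^ j ≤ 2 ^ L * 3 ^ j :=
      Nat.mul_le_mul_right _ (Nat.pow_le_pow_right (by norm_num) hi)
    rw [pow_succ, mul_right_comm] at this
    omega

lemma Win.next {M j L s : ℕ} (h : Win M j L s) (hL : 2 ≤ L) :
    ∃ s' d, Tr s s' d ∧ 1 ≤ d ∧ d ≤ 2 ∧ Win M (j + 1) (L - d) s' := by
  obtain ⟨n, rfl⟩ : ∃ n, L = n + 2 := ⟨L - 2, by omega⟩
  have e0 : 2 ^ (n + 2) * 3 ^ j = 4 * (2 ^ n * 3 ^ j) := by ring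
  have e1 : 2 ^ (n + 2 - 1) * 3 ^ (j + 1) = 6 * (2 ^ n * 3 ^ j) := by
    rw [show n + 2 - 1 = n + 1 from rfl]; ring
  have e2 : 2 ^ (n + 2 - 2) * 3 ^ (j + 1) = 3 * (2 ^ n * 3 ^ j) := by
    rw [show n + 2 - 2 = n from rfl]; ring
  unfold Win at h
  rw [e0] at h
  rcases h with ⟨rfl, h⟩ | ⟨rfl, h⟩ | ⟨rfl, h⟩ | ⟨rfl, h⟩
  · exact ⟨1, 2, by unfold Tr; omega, by omega, by omega, by unfold Win; rw [e2]; omega⟩
  · by_cases c : 32 * M < 81 * (2 ^ n * 3 ^ j)
    · exact ⟨2, 2, by unfold Tr; omega, by omega, by omega, by unfold Win; rw [e2]; omega⟩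
    · exact ⟨3, 2, by unfold Tr; omega, by omega, by omega, by unfold Win; rw [e2]; omega⟩
  · exact ⟨0, 1, by unfold Tr; omega, by omega, by omega, by unfold Win; rw [e1]; omega⟩
  · exact ⟨1, 1, by unfold Tr; omega, by omega, by omega, by unfold Win; rw [e1]; omega⟩

/-- The number of points below row j. -/
def below (P : Finset (ℕ × ℕ)) (j : ℕ) : ℕ := (P.filter fun c => c.2 < j).card

/-- Row j as a Boolean sequence. -/
def rowOf (P : Finset (ℕ × ℕ)) (j i : ℕ) : Bool := decide ((i, j) ∈ P)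

lemma below_succ {P : Finset (ℕ × ℕ)} {j L : ℕ} (h : ∀ i, (i, j) ∈ P → i < L) :
    below P (j + 1) = below P j + cnt (rowOf P j) L := by
  have e : (P.filter fun c => c.2 < j + 1) = (P.filter fun c => c.2 < j)
      ∪ ((range L).filter fun i => (i, j) ∈ P).image fun i => (i, j) := by
    ext ⟨u, v⟩
    simp only [mem_filter, mem_union, mem_image, mem_range, Prod.mk.injEq]
    constructor
    · rintro ⟨h1, h2⟩
      by_cases c : v < j
      · exact Or.inl ⟨h1, c⟩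
      · obtain rfl : v = j := by omega
        exact Or.inr ⟨u, ⟨h u h1, h1⟩, rfl, rfl⟩
    · rintro (⟨h1, h2⟩ | ⟨i, ⟨-, h1⟩, rfl, rfl⟩)
      · exact ⟨h1, by omega⟩
      · exact ⟨h1, by omega⟩
  rw [below, e, card_union_of_disjoint, card_image_of_injective _ (fun a b hab => by
    simpa using hab), card_filter (fun i => (i, j) ∈ P), below, cnt]
  · refine congrArg _ (sum_congr rfl fun i _ => ?_)
    by_cases c : (i, j) ∈ P <;> simp [rowOf, c]
  · rw [disjoint_left]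
    rintro ⟨u, v⟩ h1 h2
    simp only [mem_filter, mem_image, Prod.mk.injEq] at h1 h2
    omega

lemma cnt_pure {p : ℕ → Bool} {lk : ℕ} (hk : lk < 3) :
    ∀ L, Pure p L lk → cnt p L = (L + 2 - lk) / 3
  | 0, _ => by simp only [cnt, sum_range_zero]; omega
  | L + 1, h => by
    have := cnt_pure hk L fun i hi => h i (by omega)
    simp only [cnt, sum_range_succ] at this ⊢
    rw [this, h L (by omega)]
    by_cases c : L % 3 = lk
    · simp only [c, decide_true, Bool.toNat_true]; omega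
    · simp only [c, decide_false, Bool.toNat_false]; omega

lemma below_cls {M j L s : ℕ} (h : Win M j L s) {k : ℕ} (hk : k < 3) :
    below (cls M k) (j + 1) = below (cls M k) j + (L + 2 - (k + j) % 3) / 3 := by
  rw [below_succ (L := L) fun i hi => (h.cell i).1 (mem_cls.1 hi).1,
    cnt_pure (Nat.mod_lt (k + j) (by norm_num)) L fun i hi => ?_]
  simp only [rowOf, mem_cls, (h.cell i).2 hi, true_and, decide_eq_decide]
  omega

lemma tiling {M j k : ℕ} (hk : k < 3) {P : Finset (ℕ × ℕ)}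
    (hit : ∀ i j, 2 ^ i * 3 ^ (j + 1) ≤ M → (i, j) ∈ P ∨ (i + 1, j) ∈ P ∨ (i, j + 1) ∈ P)
    (h : ∀ i, (i, j) ∈ cls M k → (i, j) ∈ P) :
    (cls M k).card + below P j ≤ P.card + below (cls M k) j := by
  have h1 := card_filter_add_card_filter_not (s := cls M k) fun c => c.2 < j
  have h2 := card_filter_add_card_filter_not (s := P) fun c => c.2 < j
  have h3 : ((cls M k).filter fun c => ¬ c.2 < j).card ≤ (P.filter fun c => ¬ c.2 < j).card := by
    refine card_le_card_of_surjOn (fun c => if (c.1 + 2 * c.2) % 3 = k then c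
      else if (c.1 + 2 * c.2) % 3 = (k + 1) % 3 then (c.1, c.2 + 1) else (c.1 - 1, c.2 + 1)) ?_
    rintro ⟨u, v⟩ hc
    simp only [coe_filter, Set.mem_ofPred_eq] at hc
    obtain ⟨a, b⟩ := mem_cls.1 hc.1
    simp only at a b
    simp only [coe_filter, Set.mem_image, Set.mem_ofPred_eq]
    by_cases c : (u, v) ∈ P
    · exact ⟨(u, v), ⟨c, hc.2⟩, if_pos b⟩
    have hv : v ≠ j := fun e => c (by subst e; exact h u hc.1)
    obtain ⟨w, rfl⟩ : ∃ w, v = w + 1 := ⟨v - 1, by omega⟩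
    rcases hit u w a with d | d | d
    · exact ⟨(u, w), ⟨d, by simp only; omega⟩, by
        rw [if_neg (by simp only; omega), if_pos (by simp only; omega)]⟩
    · exact ⟨(u + 1, w), ⟨d, by simp only; omega⟩, by
        rw [if_neg (by simp only; omega), if_neg (by simp only; omega)]; rfl⟩
    · exact absurd d c
  unfold below
  omega

lemma climb {M : ℕ} {P : Finset (ℕ × ℕ)} (hP : P ⊆ cells M)
    (hit : ∀ i j, 2 ^ i * 3 ^ (j + 1) ≤ M → (i, j) ∈ P ∨ (i + 1, j) ∈ P ∨ (i, j + 1) ∈ P)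
    (G : ℕ → ℕ) (L : ℕ) : ∀ j s, Win M j L s →
      (∀ k < 3, 2 ≤ 2 * ((below P j : ℤ) - below (cls M k) j + G k)
        + pot s ((k + j) % 3) L (rowOf P j)) → ∃ k < 3, (cls M k).card ≤ P.card + G k := by
  induction L using Nat.strong_induction_on with
  | _ L ih =>
    intro j s hw hI
    have hrow : ∀ i, (i, j) ∈ P → i < L := fun i hi => (hw.cell i).1 (mem_cells.1 (hP hi))
    have h0 : ∀ i, L ≤ i → rowOf P j i = false := fun i hi =>
      decide_eq_false fun c => absurd (hrow i c) (by omega)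
    by_cases hp : ∃ lk < 3, Pure (rowOf P j) L lk
    · obtain ⟨lk, hk, hp⟩ := hp
      have hk' : (lk + 2 * j) % 3 < 3 := Nat.mod_lt _ (by norm_num)
      have a := hI _ hk'
      rw [show ((lk + 2 * j) % 3 + j) % 3 = lk by omega] at a
      have b := pot_pure hw.lt hk hp h0
      have c := tiling (j := j) hk' hit fun i hi => by
        obtain ⟨c1, c2⟩ := mem_cls.1 hi
        have := hp i ((hw.cell i).1 c1)
        simp only [rowOf, decide_eq_decide] at this c2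
        exact this.2 (by omega)
      exact ⟨_, hk', by omega⟩
    have hL : 2 ≤ L := by
      by_contra c
      refine hp ⟨if rowOf P j 0 = true then 0 else 1, by split_ifs <;> omega, fun i hi => ?_⟩
      obtain rfl : i = 0 := by omega
      cases rowOf P j 0 <;> rfl
    obtain ⟨s', d, ht, d1, d2, hw'⟩ := hw.next hL
    refine ih (L - d) (by omega) (j + 1) s' hw' fun k hk => ?_
    have := step (q := rowOf P (j + 1)) ht (Nat.mod_lt (k + j) (by norm_num)) (by omega) h0 hp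
      (fun i hi => by simpa only [rowOf, decide_eq_true_eq] using hit i j ((hw'.cell i).2 hi))
      (hI k hk)
    rw [below_succ hrow, below_cls hw hk, show (k + (j + 1)) % 3 = ((k + j) % 3 + 1) % 3 by omega]
    omega

theorem lower {M t : ℕ} (h1 : 2 ^ t ≤ M) (h2 : M < 2 ^ (t + 1)) (P : Finset (ℕ × ℕ))
    (hP : P ⊆ cells M)
    (hit : ∀ i j, 2 ^ i * 3 ^ (j + 1) ≤ M → (i, j) ∈ P ∨ (i + 1, j) ∈ P ∨ (i, j + 1) ∈ P) :
    ∃ k < 3, (cls M k).card ≤ P.card ∨ ((cls M k).card ≤ P.card + 1 ∧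
      ((2 * M < 3 * 2 ^ t ∧ k = t % 3)
        ∨ (3 * 2 ^ t ≤ 2 * M ∧ 16 * M < 27 * 2 ^ t ∧ k = (t + 1) % 3))) := by
  have e : 2 ^ (t + 1) * 3 ^ 0 = 2 * 2 ^ t := by ring
  rw [pow_succ] at h2
  obtain ⟨s, hw⟩ : ∃ s, Win M 0 (t + 1) s := by
    unfold Win
    rw [e]
    by_cases c1 : 16 * M < 18 * 2 ^ t
    · exact ⟨0, by omega⟩
    by_cases c2 : 16 * M < 24 * 2 ^ t
    · exact ⟨1, by omega⟩
    by_cases c3 : 16 * M < 27 * 2 ^ t
    · exact ⟨2, by omega⟩
    · exact ⟨3, by omega⟩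
  obtain ⟨k, hk, h⟩ := climb hP hit (fun k => gain s ((t + 1 + 2 + 2 * k) % 3)) (t + 1) 0 s hw
    fun k hk => by
      have := pot_init hw.lt hk (t + 1) (rowOf P 0)
      simp only [below, Nat.not_lt_zero, filter_false, card_empty, add_zero, Nat.mod_eq_of_lt hk]
      omega
  refine ⟨k, hk, ?_⟩
  unfold Win at hw
  rw [e] at hw
  simp only [gain] at h
  split_ifs at h <;> omega

end Pool.Agent.Lib.MP_2eb2b4_co
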