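import Pool.Agent.Lib.MP_2eb2b4_co.Upper
import Pool.Agent.Lib.MP_2eb2b4_co.Lower

/-!
The lattice lower bound in the form used by the reduction, and the exact formula.
-/

namespace Pool.Agent.Lib.MP_2eb2b4_co

open Finset

lemma low (M : ℕ) (hM : 1 ≤ M) (P : Finset (ℕ × ℕ)) (hP : P ⊆ cells M)
    (hit : ∀ i j, 2 ^ i * 3 ^ (j + 1) ≤ M → (i, j) ∈ P ∨ (i + 1, j) ∈ P ∨ (i, j + 1) ∈ P) :
    ∃ k < 3, (cls M k).card ≤ P.card ∨ ((cls M k).card ≤ P.card + 1 ∧
      ((∃ t, (t + 1) % 3 = k ∧ 2 ^ t * 2 ≤ M ∧ M < 2 ^ t * 3) ∨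
      ∃ t, (t + 2) % 3 = k ∧ 2 ^ t * 24 ≤ M ∧ M < 2 ^ t * 27)) := by
  obtain ⟨t, h1, h2⟩ : ∃ t, 2 ^ t ≤ M ∧ M < 2 ^ (t + 1) :=
    ⟨Nat.log 2 M, Nat.pow_log_le_self 2 (by omega), Nat.lt_pow_succ_log_self (by norm_num) M⟩
  obtain ⟨k, hk, h | ⟨h, ⟨a, b⟩ | ⟨a, b, c⟩⟩⟩ := lower h1 h2 P hP hit
  · exact ⟨k, hk, Or.inl h⟩
  · rcases t with _ | s
    · obtain rfl : M = 1 := by omega
      have e : (cls 1 1).card = 0 := by decide
      exact ⟨1, by norm_num, Or.inl (by omega)⟩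
    · have e : 2 ^ (s + 1) = 2 ^ s * 2 := pow_succ _ _
      exact ⟨k, hk, Or.inr ⟨h, Or.inl ⟨s, b.symm, by omega, by omega⟩⟩⟩
  · by_cases h4 : 4 ≤ t
    · obtain ⟨s, rfl⟩ : ∃ s, t = s + 4 := ⟨t - 4, by omega⟩
      have e : 2 ^ (s + 4) = 2 ^ s * 16 := by ring
      exact ⟨k, hk, Or.inr ⟨h, Or.inr ⟨s, by omega, by omega, by omega⟩⟩⟩
    · have h3 : t < 4 := by omega
      interval_cases t
      · omega
      · obtain rfl : M = 3 := by omega
        have e : (cls 3 0).card = 1 := by decide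
        have : 0 < P.card := by
          rcases hit 0 0 (by norm_num) with x | x | x <;> exact card_pos.2 ⟨_, x⟩
        exact ⟨0, by norm_num, Or.inl (by omega)⟩
      · obtain rfl : M = 6 := by omega
        obtain rfl : k = 0 := by omega
        have e : (cls 6 0).card = 2 := by decide
        have e' : (cls 6 1).card = 1 := by decide
        exact ⟨1, by norm_num, Or.inl (by omega)⟩
      · obtain rfl : k = 1 := by omega
        obtain rfl | rfl : M = 12 ∨ M = 13 := by omega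
        · have e : (cls 12 1).card = 3 := by decide
          have e' : (cls 12 2).card = 2 := by decide
          exact ⟨2, by norm_num, Or.inl (by omega)⟩
        · have e : (cls 13 1).card = 3 := by decide
          have e' : (cls 13 2).card = 2 := by decide
          exact ⟨2, by norm_num, Or.inl (by omega)⟩

theorem exact_formula {n : ℕ} (hn : 1 ≤ n) : (f n : ℤ) = min (g n 0) (min (g n 1) (g n 2)) :=
  glue low hn

end Pool.Agent.Lib.MP_2eb2b4_co
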