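import Pool.Agent.Lib.MP_2eb2b4_co.Tab

/-!
Kernel checks: the table is monotone, and it dominates the corner gain.
-/

namespace Pool.Agent.Lib.MP_2eb2b4_co

/-- A function of three bits is monotone. -/
def Mono3 (F : ℕ → ℕ) : Prop :=
  ∀ x y z x' y' z' : Bool, x ≤ x' → y ≤ y' → z ≤ z' → F (b3 x y z) ≤ F (b3 x' y' z')

instance (F : ℕ → ℕ) : Decidable (Mono3 F) := by unfold Mono3; infer_instance

/-- A function is antitone on 0, 1, 2. -/
def Anti3 (F : ℕ → ℕ) : Prop := ∀ u < 3, ∀ v ≤ u, F u ≤ F v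

instance (F : ℕ → ℕ) : Decidable (Anti3 F) := by unfold Anti3; infer_instance

lemma tb_left : ∀ s < 4, ∀ lk < 3, ∀ rk < 3, ∀ B < 8, ∀ ph < 4,
    Mono3 fun A => tb s lk rk A B ph := by
  decide +kernel

lemma tb_right : ∀ s < 4, ∀ lk < 3, ∀ rk < 3, ∀ A < 8, ∀ ph < 4,
    Mono3 fun B => tb s lk rk A B ph := by
  decide +kernel

lemma tb_ph : ∀ s < 4, ∀ lk < 3, ∀ rk < 3, ∀ A < 8, ∀ B < 8, Anti3 (tb s lk rk A B) := by
  decide +kernel

lemma tb_init : ∀ s < 4, ∀ lk < 3, ∀ rk < 3, ∀ A < 8, ∀ B < 8, ∀ u < 4,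
    2 ≤ 2 * gain s rk + tb s lk rk A B u := by
  decide +kernel

lemma b3_lt : ∀ x y z : Bool, b3 x y z < 8 := by decide

end Pool.Agent.Lib.MP_2eb2b4_co
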