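import Pool.Agent.Lib.MP_2eb2b4_co.Rec

/-!
Class counts of the lattice points (i, j) with 2^i 3^j ≤ M; they are all equal for
infinitely many M in the windows 1536 * 8^m ≤ M < 1728 * 8^m.
-/

namespace Pool.Agent.Lib.MP_2eb2b4_co

open Finset

/-- The lattice points (i, j) with 2^i 3^j ≤ M. -/
def cells (M : ℕ) : Finset (ℕ × ℕ) :=
  (range (M + 1) ×ˢ range (M + 1)).filter fun p => 2 ^ p.1 * 3 ^ p.2 ≤ M

lemma mem_cells {M : ℕ} {p : ℕ × ℕ} : p ∈ cells M ↔ 2 ^ p.1 * 3 ^ p.2 ≤ M := by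
  simp only [cells, mem_filter, mem_product, mem_range, and_iff_right_iff_imp]
  intro hp
  have h1 : p.1 < 2 ^ p.1 := Nat.lt_two_pow_self
  have h2 : p.2 < 3 ^ p.2 := Nat.lt_pow_self (by norm_num)
  have h3 : 2 ^ p.1 ≤ 2 ^ p.1 * 3 ^ p.2 := Nat.le_mul_of_pos_right _ (by positivity)
  have h4 : 3 ^ p.2 ≤ 2 ^ p.1 * 3 ^ p.2 := Nat.le_mul_of_pos_left _ (by positivity)
  omega

/-- The points of class k. -/
def cls (M k : ℕ) : Finset (ℕ × ℕ) := (cells M).filter fun p => (p.1 + 2 * p.2) % 3 = k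

lemma mem_cls {M k : ℕ} {p : ℕ × ℕ} :
    p ∈ cls M k ↔ 2 ^ p.1 * 3 ^ p.2 ≤ M ∧ (p.1 + 2 * p.2) % 3 = k := by
  rw [cls, mem_filter, mem_cells]

/-- The logarithm of 2 in base 3. -/
noncomputable def be : ℝ := Real.logb 3 2

lemma rpow_be : (3 : ℝ) ^ be = 2 := Real.rpow_logb (by norm_num) (by norm_num) (by norm_num)

lemma be_pos : 0 < be := Real.logb_pos (by norm_num) (by norm_num)

lemma rpow_cell (i j : ℕ) : (3 : ℝ) ^ (i * be + j) = 2 ^ i * 3 ^ j := by
  rw [Real.rpow_add (by norm_num), mul_comm (i : ℝ), Real.rpow_mul (by norm_num), rpow_be,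
    Real.rpow_natCast, Real.rpow_natCast]

lemma be_irr (d : ℕ) (p : ℤ) (hd : 0 < d) : d * be ≠ p := by
  intro h
  have hp : (0 : ℝ) < p := h ▸ mul_pos (by exact_mod_cast hd) be_pos
  obtain ⟨e, rfl⟩ := Int.eq_ofNat_of_zero_le (by exact_mod_cast hp.le : 0 ≤ p)
  have h1 := rpow_cell d 0
  rw [h] at h1
  simp only [Int.cast_natCast, Nat.cast_zero, add_zero, Real.rpow_natCast, pow_zero, mul_one] at h1
  have h2 : (3 : ℕ) ^ e = 2 ^ d := by exact_mod_cast h1
  have h3 : 2 ∣ 3 ^ e := h2 ▸ dvd_pow_self 2 hd.ne'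
  have := Nat.Prime.dvd_of_dvd_pow Nat.prime_two h3
  omega

/-- The integer part of 27^y. -/
noncomputable def NN (y : ℝ) : ℕ := ⌊(3 : ℝ) ^ (3 * y)⌋₊

lemma le_NN (y : ℝ) (i j : ℕ) : 2 ^ i * 3 ^ j ≤ NN y ↔ i * be + j ≤ 3 * y := by
  rw [NN, Nat.le_floor_iff (by positivity),
    ← Real.rpow_le_rpow_left_iff (x := 3) (y := i * be + j) (by norm_num), rpow_cell]
  push_cast
  rfl

/-- The number of points of class k in column i, minus one. -/
noncomputable def col (i k : ℕ) (y : ℝ) : ℤ := ⌊y - (i * be + ((i + 2 * k) % 3 : ℕ)) / 3⌋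

lemma card_col {y : ℝ} (hy : 0 ≤ y) {i k : ℕ} (hi : i < 3) (hk : k < 3) :
    ((((cls (NN (y + be)) k).filter fun p => p.1 < 3).filter fun p => p.1 = i).card : ℤ)
      = col i k (y + be) + 1 := by
  have hr : (((i + 2 * k) % 3 : ℕ) : ℝ) ≤ 2 := by exact_mod_cast (by omega : (i + 2 * k) % 3 ≤ 2)
  have hi' : (i : ℝ) ≤ 2 := by exact_mod_cast (by omega : i ≤ 2)
  have h0 : -1 ≤ col i k (y + be) := by
    rw [col, Int.le_floor]
    have := be_pos
    push_cast
    nlinarith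
  have : (((cls (NN (y + be)) k).filter fun p => p.1 < 3).filter fun p => p.1 = i)
      = (range (col i k (y + be) + 1).toNat).image fun b => (i, 3 * b + (i + 2 * k) % 3) := by
    ext ⟨u, v⟩
    simp only [mem_filter, mem_cls, le_NN, mem_image, mem_range, Prod.mk.injEq]
    have key : ∀ b : ℕ, b < (col i k (y + be) + 1).toNat ↔
        i * be + ((3 * b + (i + 2 * k) % 3 : ℕ) : ℝ) ≤ 3 * (y + be) := by
      intro b
      rw [Int.lt_toNat, Int.lt_add_one_iff, col, Int.le_floor, Nat.cast_add (3 * b),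
        Nat.cast_mul 3 b, Int.cast_natCast]
      simp only [Nat.cast_ofNat]
      constructor <;> intro h <;> linarith
    constructor
    · rintro ⟨⟨⟨h1, h2⟩, -⟩, rfl⟩
      have e : 3 * (v / 3) + (u + 2 * k) % 3 = v := by omega
      exact ⟨v / 3, (key _).2 (by rwa [e]), rfl, e⟩
    · rintro ⟨b, hb, rfl, rfl⟩
      exact ⟨⟨⟨(key b).1 hb, by omega⟩, hi⟩, rfl⟩
  rw [this, card_image_of_injective _ (fun b c hbc => by simp only [Prod.mk.injEq] at hbc; omega),
    card_range]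
  omega

lemma card_step {y : ℝ} (hy : 0 ≤ y) {k : ℕ} (hk : k < 3) :
    ((cls (NN (y + be)) k).card : ℤ)
      = (cls (NN y) k).card + (col 0 k (y + be) + col 1 k (y + be) + col 2 k (y + be) + 3) := by
  have h1 := card_filter_add_card_filter_not (s := cls (NN (y + be)) k) fun p => p.1 < 3
  have h2 : ((cls (NN (y + be)) k).filter fun p => ¬ p.1 < 3)
      = (cls (NN y) k).image fun p => (p.1 + 3, p.2) := by
    ext ⟨u, v⟩
    simp only [mem_filter, mem_cls, le_NN, mem_image, Prod.mk.injEq, Prod.exists]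
    constructor
    · rintro ⟨⟨h1, h2⟩, h3⟩
      obtain ⟨w, rfl⟩ : ∃ w, u = w + 3 := ⟨u - 3, by omega⟩
      push_cast at h1
      exact ⟨w, v, ⟨by linarith, by omega⟩, rfl, rfl⟩
    · rintro ⟨w, v', ⟨h1, h2⟩, rfl, rfl⟩
      refine ⟨⟨?_, by omega⟩, by omega⟩
      push_cast
      linarith
  rw [h2, card_image_of_injective _ (fun p q hpq => by
    simp only [Prod.mk.injEq] at hpq; exact Prod.ext (by omega) hpq.2)] at h1
  have h3 := card_eq_sum_card_fiberwise (f := fun p : ℕ × ℕ => p.1)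
    (s := (cls (NN (y + be)) k).filter fun p => p.1 < 3) (t := range 3)
    (fun p hp => by simpa using (mem_filter.1 hp).2)
  simp only [sum_range_succ, sum_range_zero] at h3
  have c0 := card_col hy (i := 0) (by norm_num) hk
  have c1 := card_col hy (i := 1) (by norm_num) hk
  have c2 := card_col hy (i := 2) (by norm_num) hk
  omega

/-- The increment of the class count, up to the constant 3. -/
noncomputable def inc (k : ℕ) (y : ℝ) : ℤ := col 0 k (y + be) + col 1 k (y + be) + col 2 k (y + be)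

lemma card_iter {y : ℝ} (hy : 0 ≤ y) {k : ℕ} (hk : k < 3) (m : ℕ) :
    ((cls (NN (y + m * be)) k).card : ℤ)
      = (cls (NN y) k).card + ∑ s ∈ range m, inc k (y + s * be) + 3 * m := by
  induction m with
  | zero => simp
  | succ m ih =>
    have e : y + ((m + 1 : ℕ) : ℝ) * be = y + m * be + be := by push_cast; ring
    have h0 : 0 ≤ y + m * be := add_nonneg hy (mul_nonneg (Nat.cast_nonneg m) be_pos.le)
    rw [e, card_step h0 hk, ih, sum_range_succ, inc]
    push_cast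
    ring

lemma inc_add (k : ℕ) (y : ℝ) (p : ℤ) : inc k (y + p) = inc k y + 3 * p := by
  have : ∀ i, col i k (y + p + be) = col i k (y + be) + p := by
    intro i
    rw [col, col, ← Int.floor_add_intCast]
    congr 1
    ring
  simp only [inc, this]
  ring

lemma inc_bound {q : ℕ} {p : ℤ} (hg : Good be q p) (y : ℝ) {k : ℕ} (hk : k < 3) :
    ∑ s ∈ range q, (inc k (y + s * be) - inc 2 (y + s * be)) ∈ Set.Icc (-12 : ℤ) 12 := by
  obtain ⟨C, hC⟩ := dk hg
  have key : ∀ k < 3, |((∑ s ∈ range q, inc k (y + s * be) : ℤ) : ℝ)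
      - q * (3 * y + 2 * be - 1) - 3 * C| ≤ 6 := by
    intro k hk
    have e : ∀ i, ∑ s ∈ range q, col i k (y + s * be + be)
        = ∑ s ∈ range q, ⌊(y + be - (i * be + ((i + 2 * k) % 3 : ℕ)) / 3) + s * be⌋ := by
      intro i
      refine sum_congr rfl fun s _ => ?_
      rw [col]
      congr 1
      ring
    have a0 := hC (y + be - ((0 : ℕ) * be + ((0 + 2 * k) % 3 : ℕ)) / 3)
    have a1 := hC (y + be - ((1 : ℕ) * be + ((1 + 2 * k) % 3 : ℕ)) / 3)
    have a2 := hC (y + be - ((2 : ℕ) * be + ((2 + 2 * k) % 3 : ℕ)) / 3)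
    rw [← e] at a0 a1 a2
    have r : (((0 + 2 * k) % 3 : ℕ) : ℝ) + ((1 + 2 * k) % 3 : ℕ) + ((2 + 2 * k) % 3 : ℕ) = 3 := by
      have : (0 + 2 * k) % 3 + (1 + 2 * k) % 3 + (2 + 2 * k) % 3 = 3 := by
        interval_cases k <;> rfl
      exact_mod_cast this
    have r' := congrArg (fun x => (q : ℝ) * x) r
    simp only [inc, sum_add_distrib, Int.cast_add]
    simp only [Nat.cast_zero, Nat.cast_one, Nat.cast_ofNat] at a0 a1 a2
    rw [abs_le] at a0 a1 a2 ⊢
    constructor <;> nlinarith [a0.1, a0.2, a1.1, a1.2, a2.1, a2.2]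
  have b1 := abs_le.1 (key k hk)
  have b2 := abs_le.1 (key 2 (by norm_num))
  rw [sum_sub_distrib]
  constructor
  · have : ((-12 : ℤ) : ℝ) ≤ ((∑ s ∈ range q, inc k (y + s * be)
        - ∑ s ∈ range q, inc 2 (y + s * be) : ℤ) : ℝ) := by
      rw [Int.cast_sub]; push_cast at b1 b2 ⊢; linarith [b1.1, b2.2]
    exact_mod_cast this
  · have : ((∑ s ∈ range q, inc k (y + s * be)
        - ∑ s ∈ range q, inc 2 (y + s * be) : ℤ) : ℝ) ≤ ((12 : ℤ) : ℝ) := by
      rw [Int.cast_sub]; push_cast at b1 b2 ⊢; linarith [b1.2, b2.1]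
    exact_mod_cast this

lemma cls_base {k : ℕ} (hk : k < 3) : (cls 1536 k).card = 15 := by
  have e : cls 1536 k = (range 11 ×ˢ range 7).filter
      fun p => 2 ^ p.1 * 3 ^ p.2 ≤ 1536 ∧ (p.1 + 2 * p.2) % 3 = k := by
    ext ⟨i, j⟩
    simp only [mem_cls, mem_filter, mem_product, mem_range, iff_and_self]
    rintro ⟨hm, -⟩
    constructor
    · by_contra hi
      have h1 : 2 ^ 11 ≤ 2 ^ i := Nat.pow_le_pow_right (by norm_num) (by omega)
      have h2 : 2 ^ i ≤ 2 ^ i * 3 ^ j := Nat.le_mul_of_pos_right _ (by positivity)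
      omega
    · by_contra hj
      have h1 : 3 ^ 7 ≤ 3 ^ j := Nat.pow_le_pow_right (by norm_num) (by omega)
      have h2 : 3 ^ j ≤ 2 ^ i * 3 ^ j := Nat.le_mul_of_pos_left _ (by positivity)
      omega
  rw [e]
  interval_cases k <;> decide +kernel

theorem exists_equal (K : ℕ) : ∃ m M : ℕ, K ≤ m ∧ 1536 * 8 ^ m ≤ M ∧ M < 1728 * 8 ^ m ∧
    (cls M 0).card = (cls M 2).card ∧ (cls M 1).card = (cls M 2).card := by
  have hlt : Real.logb 3 1536 < Real.logb 3 1537 :=
    Real.logb_lt_logb (by norm_num) (by norm_num) (by norm_num)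
  have hpos : 0 < Real.logb 3 1536 := Real.logb_pos (by norm_num) (by norm_num)
  obtain ⟨y, m, hy, hm, hs⟩ := recur be_irr
    (fun y => (inc 0 y - inc 2 y, inc 1 y - inc 2 y))
    (fun y p => by simp only [inc_add, Prod.mk.injEq]; constructor <;> ring)
    ((Real.logb 3 1536 + Real.logb 3 1537) / 6) (Set.Icc (-12 : ℤ) 12 ×ˢ Set.Icc (-12 : ℤ) 12)
    ((Set.finite_Icc _ _).prod (Set.finite_Icc _ _))
    (fun q p hg => by
      rw [← prod_mk_sum]
      exact ⟨inc_bound hg _ (by norm_num), inc_bound hg _ (by norm_num)⟩)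
    (ε := (Real.logb 3 1537 - Real.logb 3 1536) / 6) (by linarith) K
  rw [← prod_mk_sum, Prod.mk_eq_zero, sum_sub_distrib, sum_sub_distrib] at hs
  obtain ⟨y1, y2⟩ := abs_lt.1 hy
  have lo : (1536 : ℝ) ≤ 3 ^ (3 * y) := by
    rw [← Real.logb_le_iff_le_rpow (by norm_num) (by norm_num)]; linarith
  have up : (3 : ℝ) ^ (3 * y) < 1537 := by
    rw [← Real.lt_logb_iff_rpow_lt (by norm_num) (by norm_num)]; linarith
  have hN : NN y = 1536 := by
    rw [NN, Nat.floor_eq_iff (by positivity)]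
    constructor
    · exact_mod_cast lo
    · push_cast; linarith
  have hy0 : 0 ≤ y := by linarith
  have e : (3 : ℝ) ^ (3 * (y + m * be)) = 3 ^ (3 * y) * 8 ^ m := by
    have := rpow_cell (3 * m) 0
    simp only [Nat.cast_zero, add_zero, pow_zero, mul_one] at this
    rw [mul_add, Real.rpow_add (by norm_num), ← mul_assoc]
    push_cast at this
    rw [this, pow_mul]
    norm_num
  have h8 : (0 : ℝ) < 8 ^ m := by positivity
  refine ⟨m, NN (y + m * be), hm, ?_, ?_, ?_, ?_⟩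
  · rw [NN, Nat.le_floor_iff (by positivity), e]
    push_cast
    gcongr
  · rw [NN, Nat.floor_lt (by positivity), e]
    push_cast
    nlinarith
  · have c0 := card_iter hy0 (k := 0) (by norm_num) m
    have c2 := card_iter hy0 (k := 2) (by norm_num) m
    rw [hN, cls_base (by norm_num)] at c0 c2
    have := hs.1
    omega
  · have c1 := card_iter hy0 (k := 1) (by norm_num) m
    have c2 := card_iter hy0 (k := 2) (by norm_num) m
    rw [hN, cls_base (by norm_num)] at c1 c2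
    have := hs.2
    omega

end Pool.Agent.Lib.MP_2eb2b4_co
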