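import Mathlib

/-!
L-hitting numbers of initial segments of the 2-3 grid: the definitions of the problem.
-/

namespace Pool.Agent.Lib.MP_2eb2b4_co

/-- The set A of all numbers 2^i 3^j with i, j ≥ 0. -/
def A : Set ℕ := {m | ∃ i j : ℕ, m = 2 ^ i * 3 ^ j}

/-- The n-th element a n (n ≥ 1) of A in increasing order: a 1 = 1, a 2 = 2, a 3 = 3, a 4 = 4, a 5 = 6. -/
noncomputable def a (n : ℕ) : ℕ := Nat.nth (fun m => m ∈ A) (n - 1)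

/-- The initial segment A n = {a 1, ..., a n}. -/
noncomputable def An (n : ℕ) : Finset ℕ := (Finset.Icc 1 n).image a

/-- H meets every L-configuration {2^i 3^j, 2^(i+1) 3^j, 2^i 3^(j+1)} contained in A n. -/
def Hits (n : ℕ) (H : Finset ℕ) : Prop :=
  ∀ i j : ℕ, 2 ^ i * 3 ^ j ∈ An n → 2 ^ (i + 1) * 3 ^ j ∈ An n → 2 ^ i * 3 ^ (j + 1) ∈ An n →
    (2 ^ i * 3 ^ j ∈ H ∨ 2 ^ (i + 1) * 3 ^ j ∈ H ∨ 2 ^ i * 3 ^ (j + 1) ∈ H)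

/-- The L-hitting number: the least size of a set H ⊆ A n meeting every L-configuration in A n. -/
noncomputable def f (n : ℕ) : ℕ := sInf {c | ∃ H : Finset ℕ, H ⊆ An n ∧ Hits n H ∧ H.card = c}

/-- B n k = {2^i 3^j ∈ A n : i - j ≡ k (mod 3)}. -/
def B (n k : ℕ) : Set ℕ :=
  {m | m ∈ An n ∧ ∃ i j : ℕ, m = 2 ^ i * 3 ^ j ∧ (i : ℤ) - (j : ℤ) ≡ (k : ℤ) [ZMOD 3]}

/-- Bt n k = the powers of two 2^i ∈ A n with i ≥ 1, i ≡ k (mod 3) and 2^(i-1) * 3 ∉ A n. -/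
def Bt (n k : ℕ) : Set ℕ :=
  {m | m ∈ An n ∧ ∃ i : ℕ, 1 ≤ i ∧ m = 2 ^ i ∧ i ≡ k [MOD 3] ∧ 2 ^ (i - 1) * 3 ∉ An n}

/-- h n = min over k ∈ {0, 1, 2} of |B n k| - |Bt n k| (computed in the integers). -/
noncomputable def h (n : ℕ) : ℤ :=
  min (((B n 0).ncard : ℤ) - (Bt n 0).ncard)
    (min (((B n 1).ncard : ℤ) - (Bt n 1).ncard) (((B n 2).ncard : ℤ) - (Bt n 2).ncard))

end Pool.Agent.Lib.MP_2eb2b4_co
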