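import Pool.Agent.Lib.MP_2eb2b4_co.Defs

/-!
The corner correction and the corrected class minimum.
-/

namespace Pool.Agent.Lib.MP_2eb2b4_co

/-- C n k = the numbers 2^(i+3) * 3 ∈ A n with i + 2 ≡ k (mod 3) and 2^i * 27 ∉ A n. -/
def C (n k : ℕ) : Set ℕ :=
  {m | m ∈ An n ∧ ∃ i : ℕ, m = 2 ^ (i + 3) * 3 ∧ i + 2 ≡ k [MOD 3] ∧ 2 ^ i * 27 ∉ An n}

/-- g n k = |B n k| - |Bt n k| - |C n k| (computed in the integers). -/
noncomputable def g (n k : ℕ) : ℤ :=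
  ((B n k).ncard : ℤ) - (Bt n k).ncard - (C n k).ncard

end Pool.Agent.Lib.MP_2eb2b4_co
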