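import Mathlib

/-!
A Denjoy-Koksma type bound for sums of floors along an irrational rotation, and the
recurrence to zero of bounded integer cocycles (pigeonhole on two approximation times).
-/

namespace Pool.Agent.Lib.MP_2eb2b4_co

open Finset

lemma sum_emod_perm (q : ℕ) (p A : ℤ) (hq : 0 < q) (hc : IsCoprime p (q : ℤ)) :
    ∑ s ∈ range q, (A + s * p) % q = ∑ s ∈ range q, (s : ℤ) := by
  have hq' : (0 : ℤ) < q := by exact_mod_cast hq
  have hinj : Set.InjOn (fun s : ℕ => ((A + s * p) % q).toNat) (range q : Set ℕ) := by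
    intro s hs t ht hst
    have hs' : s < q := by simpa using hs
    have ht' : t < q := by simpa using ht
    have h1 : 0 ≤ (A + s * p) % q := Int.emod_nonneg _ hq'.ne'
    have h2 : 0 ≤ (A + t * p) % q := Int.emod_nonneg _ hq'.ne'
    have h3 : (A + s * p) % q = (A + t * p) % q := by
      simp only at hst
      omega
    have h4 : (q : ℤ) ∣ (A + t * p) - (A + s * p) := Int.ModEq.dvd h3
    have h5 : (q : ℤ) ∣ ((t : ℤ) - s) * p := by
      have : (A + t * p) - (A + s * p) = ((t : ℤ) - s) * p := by ring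
      rwa [this] at h4
    have h6 : (q : ℤ) ∣ (t : ℤ) - s := hc.symm.dvd_of_dvd_mul_right h5
    have h7 : (t : ℤ) - s = 0 := Int.eq_zero_of_abs_lt_dvd h6 (by rw [abs_lt]; omega)
    omega
  have him : (range q).image (fun s : ℕ => ((A + s * p) % q).toNat) = range q := by
    apply eq_of_subset_of_card_le
    · intro x hx
      obtain ⟨s, -, rfl⟩ := mem_image.1 hx
      have h1 : 0 ≤ (A + s * p) % q := Int.emod_nonneg _ hq'.ne'
      have h2 : (A + s * p) % q < q := Int.emod_lt_of_pos _ hq'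
      rw [mem_range]; omega
    · rw [card_image_of_injOn hinj]
  conv_rhs => rw [← him, sum_image hinj]
  refine sum_congr rfl fun s _ => ?_
  exact (Int.toNat_of_nonneg (Int.emod_nonneg _ hq'.ne')).symm

lemma sum_ediv_shift (q : ℕ) (p A : ℤ) (hq : 0 < q) (hc : IsCoprime p (q : ℤ)) :
    ∑ s ∈ range q, (A + s * p) / q = A + ∑ s ∈ range q, (0 + s * p) / q := by
  have hq' : (q : ℤ) ≠ 0 := by exact_mod_cast hq.ne'
  have key : ∀ B : ℤ, (q : ℤ) * ∑ s ∈ range q, (B + s * p) / q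
      = q * B + ∑ s ∈ range q, (s : ℤ) * p - ∑ s ∈ range q, (s : ℤ) := by
    intro B
    rw [← sum_emod_perm q p B hq hc, mul_sum]
    have : (q : ℤ) * B = ∑ _s ∈ range q, B := by simp
    rw [this, ← sum_add_distrib, ← sum_sub_distrib]
    refine sum_congr rfl fun s _ => ?_
    have := Int.mul_ediv_add_emod (B + s * p) q
    linarith
  apply mul_left_cancel₀ hq'
  rw [key A, mul_add, key 0]
  ring

/-- q, p is a good approximation of the real number b. -/
def Good (b : ℝ) (q : ℕ) (p : ℤ) : Prop :=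
  0 < q ∧ IsCoprime p (q : ℤ) ∧ |q * b - p| ≤ 1 / q

lemma sum_floor_rat (q : ℕ) (p : ℤ) (hq : 0 < q) (hc : IsCoprime p (q : ℤ)) (w : ℝ) :
    ∑ s ∈ range q, ⌊w + s * p / q⌋ = ⌊q * w⌋ + ∑ s ∈ range q, (0 + s * p) / q := by
  rw [← sum_ediv_shift q p _ hq hc]
  refine sum_congr rfl fun s _ => ?_
  have hq' : (q : ℝ) ≠ 0 := by exact_mod_cast hq.ne'
  have : w + s * p / q = (q * w + ((s * p : ℤ) : ℝ)) / q := by
    push_cast; field_simp
  rw [this, Int.floor_div_natCast, Int.floor_add_intCast]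

lemma dk {b : ℝ} {q : ℕ} {p : ℤ} (h : Good b q p) :
    ∃ C : ℝ, ∀ z : ℝ, |((∑ s ∈ range q, ⌊z + s * b⌋ : ℤ) : ℝ) - q * z - C| ≤ 2 := by
  obtain ⟨hq, hc, hb⟩ := h
  have hq' : (0 : ℝ) < q := by exact_mod_cast hq
  refine ⟨((∑ s ∈ range q, (0 + s * p) / q : ℤ) : ℝ), fun z => ?_⟩
  have near : ∀ s ∈ range q, |(s : ℝ) * b - s * p / q| ≤ 1 / q := by
    intro s hs
    have hs' : (s : ℝ) ≤ q := by exact_mod_cast (mem_range.1 hs).le
    have e : (s : ℝ) * b - s * p / q = (s / q) * (q * b - p) := by field_simp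
    have h1 : (s : ℝ) / q ≤ 1 := (div_le_one hq').2 hs'
    have h0 : (0 : ℝ) ≤ s / q := by positivity
    rw [e, abs_mul, abs_of_nonneg h0]
    calc (s : ℝ) / q * |q * b - p| ≤ 1 * |q * b - p| := by gcongr
      _ ≤ 1 / q := by rwa [one_mul]
  have up : ∑ s ∈ range q, ⌊z + s * b⌋ ≤ ∑ s ∈ range q, ⌊(z + 1 / q) + s * p / q⌋ :=
    sum_le_sum fun s hs => Int.floor_mono (by have := (abs_le.1 (near s hs)).2; linarith)
  have lo : ∑ s ∈ range q, ⌊(z - 1 / q) + s * p / q⌋ ≤ ∑ s ∈ range q, ⌊z + s * b⌋ :=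
    sum_le_sum fun s hs => Int.floor_mono (by have := (abs_le.1 (near s hs)).1; linarith)
  rw [sum_floor_rat q p hq hc] at up lo
  have up' := (Int.cast_le (R := ℝ)).2 up
  have lo' := (Int.cast_le (R := ℝ)).2 lo
  rw [Int.cast_add] at up' lo'
  have e1 : (q : ℝ) * (z + 1 / q) = q * z + 1 := by field_simp
  have e2 : (q : ℝ) * (z - 1 / q) = q * z - 1 := by field_simp
  rw [e1] at up'
  rw [e2] at lo'
  have f1 := Int.floor_le ((q : ℝ) * z + 1)
  have f2 := Int.lt_floor_add_one ((q : ℝ) * z - 1)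
  rw [abs_le]
  constructor <;> linarith

lemma exists_good {b : ℝ} (hb : ∀ (d : ℕ) (p : ℤ), 0 < d → d * b ≠ p) (K : ℕ) :
    ∃ (q : ℕ) (p : ℤ), K < q ∧ Good b q p := by
  have sep : ∀ K : ℕ, ∃ δ : ℝ, 0 < δ ∧ ∀ d : ℕ, 0 < d → d ≤ K → ∀ p : ℤ, δ ≤ |d * b - p| := by
    intro K
    induction K with
    | zero => exact ⟨1, one_pos, fun d h1 h2 => by omega⟩
    | succ K ih =>
      obtain ⟨δ, hδ, H⟩ := ih
      have h0 : 0 < |((K + 1 : ℕ) : ℝ) * b - round (((K + 1 : ℕ) : ℝ) * b)| :=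
        abs_pos.2 (sub_ne_zero.2 (hb _ _ (Nat.succ_pos K)))
      refine ⟨min δ _, lt_min hδ h0, fun d h1 h2 p => ?_⟩
      rcases Nat.lt_or_ge d (K + 1) with h | h
      · exact (min_le_left _ _).trans (H d h1 (by omega) p)
      · obtain rfl : d = K + 1 := by omega
        exact (min_le_right _ _).trans (round_le _ p)
  obtain ⟨δ, hδ, H⟩ := sep K
  obtain ⟨n, hn⟩ := exists_nat_one_div_lt hδ
  obtain ⟨r, hr, hden⟩ := Real.exists_rat_abs_sub_le_and_den_le b (Nat.succ_pos n)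
  have hd : (0 : ℝ) < r.den := by exact_mod_cast r.den_pos
  have e : (r.den : ℝ) * b - r.num = r.den * (b - r) := by
    rw [Rat.cast_def]; field_simp
  have h1 : |(r.den : ℝ) * b - r.num| ≤ 1 / ((n + 1 : ℕ) + 1) := by
    rw [e, abs_mul, abs_of_pos hd]
    calc (r.den : ℝ) * |b - r| ≤ r.den * (1 / (((n.succ : ℕ) + 1) * r.den)) := by gcongr
      _ = 1 / ((n + 1 : ℕ) + 1) := by field_simp
  have h2 : (1 : ℝ) / ((n + 1 : ℕ) + 1) ≤ 1 / (n + 1) := by
    push_cast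
    exact one_div_le_one_div_of_le (by positivity) (by linarith)
  refine ⟨r.den, r.num, ?_, r.den_pos, ?_, ?_⟩
  · by_contra hK
    have := H r.den r.den_pos (by omega) r.num
    linarith
  · exact Int.isCoprime_iff_gcd_eq_one.2 (by simpa [Int.gcd] using r.reduced)
  · refine h1.trans (one_div_le_one_div_of_le hd ?_)
    have : (r.den : ℝ) ≤ (n + 1 : ℕ) := by exact_mod_cast hden
    linarith

/-- Recurrence to zero of a cocycle which is bounded at the good approximation times. -/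
lemma recur {G : Type*} [AddCommGroup G] {b : ℝ}
    (hb : ∀ (d : ℕ) (p : ℤ), 0 < d → d * b ≠ p) (D : ℝ → G)
    (hD : ∀ (y : ℝ) (p : ℤ), D (y + p) = D y) (y : ℝ) (F : Set G) (hF : F.Finite)
    (bd : ∀ q p, Good b q p → ∑ s ∈ range q, D (y + s * b) ∈ F) {ε : ℝ} (hε : 0 < ε) (M : ℕ) :
    ∃ (y' : ℝ) (m : ℕ), |y' - y| < ε ∧ M ≤ m ∧ ∑ s ∈ range m, D (y' + s * b) = 0 := by
  obtain ⟨K, hK⟩ := exists_nat_one_div_lt hε
  let Q : G → Set ℕ := fun v => {q | K < q ∧ (∃ p, Good b q p) ∧ ∑ s ∈ range q, D (y + s * b) = v}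
  have hinf : ∃ v ∈ F, (Q v).Infinite := by
    by_contra hne
    have hfin : (⋃ v ∈ F, Q v).Finite :=
      hF.biUnion fun v hv => Set.not_infinite.1 fun h => hne ⟨v, hv, h⟩
    obtain ⟨B, hB⟩ := hfin.bddAbove
    obtain ⟨q, p, hq, hg⟩ := exists_good hb (max K B)
    have : q ∈ ⋃ v ∈ F, Q v :=
      Set.mem_biUnion (bd q p hg) ⟨lt_of_le_of_lt (le_max_left _ _) hq, ⟨p, hg⟩, rfl⟩
    have := hB this
    have := le_max_right K B
    omega
  obtain ⟨v, -, hv⟩ := hinf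
  obtain ⟨q, hq1, ⟨p, hg⟩, hq3⟩ := hv.nonempty
  obtain ⟨q', ⟨-, -, hq'3⟩, hlt⟩ := hv.exists_gt (q + M)
  obtain ⟨m, rfl⟩ : ∃ m, q' = q + m := ⟨q' - q, by omega⟩
  refine ⟨y + q * b - p, m, ?_, by omega, ?_⟩
  · have h1 : y + q * b - p - y = q * b - p := by ring
    have h2 : (K : ℝ) + 1 ≤ q := by exact_mod_cast hq1
    rw [h1]
    exact lt_of_le_of_lt (hg.2.2.trans (one_div_le_one_div_of_le (by positivity) h2)) hK
  · rw [sum_range_add, hq3] at hq'3
    rw [← add_eq_left.1 hq'3]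
    refine sum_congr rfl fun s _ => ?_
    rw [← hD _ p]
    congr 1
    push_cast; ring

end Pool.Agent.Lib.MP_2eb2b4_co
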