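import Pool.Agent.Lib.MP_2eb2b4_co.ChkM

/-!
Rows of a hitting set as Boolean sequences: pattern counts and the potential.
-/

namespace Pool.Agent.Lib.MP_2eb2b4_co

open Finset

/-- Pattern 101 at position i. -/
def oo (p : ℕ → Bool) (i : ℕ) : ℕ := bO (p i) (p (i + 1)) (p (i + 2))

/-- Pattern 11 at position i. -/
def qq (p : ℕ → Bool) (i : ℕ) : ℕ := bQ (p i) (p (i + 1))

/-- Pattern 000 at position i. -/
def zz (p : ℕ → Bool) (i : ℕ) : ℕ := bZ (p i) (p (i + 1)) (p (i + 2))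

/-- Pairs in the middle of the row. -/
def Pm (p : ℕ → Bool) (L : ℕ) : ℕ := ∑ i ∈ Ico 2 (L - 3), qq p i

/-- Zero triples in the middle of the row. -/
def Zm (p : ℕ → Bool) (L : ℕ) : ℕ := ∑ i ∈ Ico 1 (L - 3), zz p i

/-- The capped number of zero triples, or a mark for very short rows. -/
def ph (p : ℕ → Bool) (L : ℕ) : ℕ := if L ≤ 2 then 3 else min 2 (Zm p L)

/-- The potential of a row. -/
def pot (s lk L : ℕ) (p : ℕ → Bool) : ℕ :=
  Pm p L + tb s lk ((L + 2 + 2 * lk) % 3) (b3 (p 0) (p 1) (p 2))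
    (b3 (p (L - 3)) (p (L - 2)) (p (L - 1))) (ph p L)

/-- The cells forced in the next row. -/
def UU (p : ℕ → Bool) (L : ℕ) (i : ℕ) : Bool := decide (i < L) && nr (p i) (p (i + 1))

/-- The number of ones. -/
def cnt (p : ℕ → Bool) (L : ℕ) : ℕ := ∑ i ∈ range L, (p i).toNat

/-- The row is exactly a residue class. -/
def Pure (p : ℕ → Bool) (L lk : ℕ) : Prop := ∀ i < L, p i = decide (i % 3 = lk)

instance (p : ℕ → Bool) (L lk : ℕ) : Decidable (Pure p L lk) := by unfold Pure; infer_instance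

lemma ph_lt (p : ℕ → Bool) (L : ℕ) : ph p L < 4 := by unfold ph; split_ifs <;> omega

lemma pot_mono {s lk L : ℕ} (hs : s < 4) (hk : lk < 3) {u q : ℕ → Bool} (h : ∀ i, u i ≤ q i) :
    pot s lk L u ≤ pot s lk L q := by
  have h1 : Pm u L ≤ Pm q L := sum_le_sum fun i _ => by
    have a := h i; have b := h (i + 1)
    revert a b
    unfold qq
    generalize u i = x, u (i + 1) = y, q i = x', q (i + 1) = y'
    revert x y x' y'
    decide
  have h2 : Zm q L ≤ Zm u L := sum_le_sum fun i _ => by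
    have a := h i; have b := h (i + 1); have c := h (i + 2)
    revert a b c
    unfold zz
    generalize u i = x, u (i + 1) = y, u (i + 2) = z, q i = x', q (i + 1) = y', q (i + 2) = z'
    revert x y z x' y' z'
    decide
  have hr : (L + 2 + 2 * lk) % 3 < 3 := Nat.mod_lt _ (by norm_num)
  refine Nat.add_le_add h1 ?_
  refine (tb_left s hs lk hk _ hr _ (b3_lt _ _ _) _ (ph_lt _ _) _ _ _ _ _ _ (h 0) (h 1) (h 2)).trans ?_
  refine (tb_right s hs lk hk _ hr _ (b3_lt _ _ _) _ (ph_lt _ _) _ _ _ _ _ _ (h _) (h _) (h _)).trans ?_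
  unfold ph
  split_ifs
  · exact le_rfl
  · exact tb_ph s hs lk hk _ hr _ (b3_lt _ _ _) _ (b3_lt _ _ _) _ (by omega) _ (by omega)

lemma pot_init {s lk : ℕ} (hs : s < 4) (hk : lk < 3) (L : ℕ) (p : ℕ → Bool) :
    2 ≤ 2 * gain s ((L + 2 + 2 * lk) % 3) + pot s lk L p := by
  have := tb_init s hs lk hk _ (Nat.mod_lt (L + 2 + 2 * lk) (by norm_num)) _
    (b3_lt (p 0) (p 1) (p 2)) _ (b3_lt (p (L - 3)) (p (L - 2)) (p (L - 1))) _ (ph_lt p L)
  unfold pot
  omega

lemma pot_pure {s lk L : ℕ} (hs : s < 4) (hk : lk < 3) {p : ℕ → Bool} (h : Pure p L lk)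
    (h0 : ∀ i, L ≤ i → p i = false) : pot s lk L p ≤ 3 := by
  have e : p = fun i => decide (i < L) && decide (i % 3 = lk) := by
    funext i
    by_cases hi : i < L
    · simp [h i hi, hi]
    · simp [h0 i (by omega), hi]
  by_cases hL : L ≤ 2
  · rw [e]
    interval_cases L <;> interval_cases lk <;> interval_cases s <;> decide +kernel
  have h1 : Pm p L = 0 := sum_eq_zero fun i hi => by
    have := (mem_Ico.1 hi).2
    rw [qq, h i (by omega), h (i + 1) (by omega)]
    by_cases c : i % 3 = lk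
    · simp [bQ, show ¬ (i + 1) % 3 = lk by omega]
    · simp [bQ, c]
  have h2 : Zm p L = 0 := sum_eq_zero fun i hi => by
    have := (mem_Ico.1 hi).2
    rw [zz, h i (by omega), h (i + 1) (by omega), h (i + 2) (by omega)]
    obtain c | c | c : i % 3 = lk ∨ (i + 1) % 3 = lk ∨ (i + 2) % 3 = lk := by omega
    all_goals simp [bZ, c]
  have key : ∀ s < 4, ∀ lk < 3, ∀ r < 3, tb s lk ((r + 2 + 2 * lk) % 3)
      (b3 (decide (0 % 3 = lk)) (decide (1 % 3 = lk)) (decide (2 % 3 = lk)))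
      (b3 (decide (r = lk)) (decide ((r + 1) % 3 = lk)) (decide ((r + 2) % 3 = lk))) 0 ≤ 3 := by
    decide +kernel
  have := key s hs lk hk (L % 3) (Nat.mod_lt _ (by norm_num))
  rw [pot, ph, if_neg hL, h1, h2, h 0 (by omega), h 1 (by omega), h 2 (by omega),
    h (L - 3) (by omega), h (L - 2) (by omega), h (L - 1) (by omega),
    show (L - 3) % 3 = L % 3 by omega, show (L - 2) % 3 = (L % 3 + 1) % 3 by omega,
    show (L - 1) % 3 = (L % 3 + 2) % 3 by omega,
    show (L + 2 + 2 * lk) % 3 = (L % 3 + 2 + 2 * lk) % 3 by omega]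
  simpa using this

lemma cnt_eq (p : ℕ → Bool) (n : ℕ) :
    3 * cnt p n + ∑ i ∈ range n, zz p i + lp (p 0) (p 1)
      = n + ∑ i ∈ range n, oo p i + 2 * ∑ i ∈ range n, qq p i + lp (p n) (p (n + 1)) := by
  induction n with
  | zero => simp [cnt]
  | succ n ih =>
    have key : ∀ x y z : Bool,
        3 * x.toNat + bZ x y z + lp x y = 1 + bO x y z + 2 * bQ x y + lp y z := by decide
    have := key (p n) (p (n + 1)) (p (n + 2))
    simp only [cnt, sum_range_succ, oo, qq, zz] at ih ⊢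
    rw [show n + 1 + 1 = n + 2 from rfl]
    omega

lemma pure_of_regular {p : ℕ → Bool} {L : ℕ} (hL : 3 ≤ L)
    (h : ∀ i, i + 2 < L → oo p i = 0 ∧ qq p i = 0 ∧ qq p (i + 1) = 0 ∧ zz p i = 0) :
    ∃ lk < 3, Pure p L lk := by
  have key : ∀ x y z : Bool, bO x y z = 0 → bQ x y = 0 → bQ y z = 0 → bZ x y z = 0 →
      z = nr x y ∧ (x && y) = false := by decide
  have step : ∀ i, i + 2 < L → p (i + 2) = nr (p i) (p (i + 1)) ∧ (p i && p (i + 1)) = false :=
    fun i hi => key _ _ _ (h i hi).1 (h i hi).2.1 (h i hi).2.2.1 (h i hi).2.2.2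
  obtain ⟨lk, hk, a0, a1⟩ : ∃ lk < 3, p 0 = decide (0 % 3 = lk) ∧ p 1 = decide (1 % 3 = lk) := by
    have := (step 0 (by omega)).2
    revert this
    rw [show 0 + 1 = 1 from rfl]
    generalize p 0 = x, p 1 = y
    revert x y
    decide
  refine ⟨lk, hk, fun i => ?_⟩
  induction i using Nat.strong_induction_on with
  | _ i ih =>
    intro hi
    match i with
    | 0 => exact a0
    | 1 => exact a1
    | i + 2 =>
      rw [(step i hi).1, ih i (by omega) (by omega), ih (i + 1) (by omega) (by omega)]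
      obtain c | c | c : i % 3 = lk ∨ (i + 1) % 3 = lk ∨ (i + 2) % 3 = lk := by omega
      · simp [nr, c, show ¬ (i + 2) % 3 = lk by omega]
      · simp [nr, c, show ¬ (i + 2) % 3 = lk by omega]
      · simp [nr, c, show ¬ i % 3 = lk by omega, show ¬ (i + 1) % 3 = lk by omega]

lemma sum_split (f : ℕ → ℕ) {n : ℕ} (hn : 2 ≤ n) :
    ∑ i ∈ range n, f i = f 0 + f 1 + ∑ i ∈ Ico 2 n, f i := by
  rw [range_eq_Ico, sum_eq_sum_Ico_succ_bot (by omega), sum_eq_sum_Ico_succ_bot (by omega)]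
  exact (add_assoc _ _ _).symm

lemma Pm_UU (p : ℕ → Bool) (n : ℕ) : Pm (UU p (n + 3)) (n + 3) = ∑ i ∈ Ico 2 n, zz p i := by
  refine sum_congr rfl fun i hi => ?_
  have := (mem_Ico.1 hi).2
  simp only [qq, zz, UU, show i < n + 3 by omega, show i + 1 < n + 3 by omega, decide_true,
    Bool.true_and]
  rw [show i + 1 + 1 = i + 2 from rfl]
  generalize p i = x, p (i + 1) = y, p (i + 2) = z
  revert x y z
  decide

lemma Zm_UU (p : ℕ → Bool) {n : ℕ} (hn : 2 ≤ n) : Zm (UU p (n + 3)) (n + 3)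
    ≤ oo p 1 + oo p n + qq p n + (2 * ∑ i ∈ Ico 2 n, oo p i + ∑ i ∈ Ico 2 n, qq p i) := by
  have h1 : Zm (UU p (n + 3)) (n + 3)
      ≤ ∑ i ∈ Ico 1 n, (oo p i + oo p (i + 1) + qq p (i + 1)) := by
    refine sum_le_sum fun i hi => ?_
    have := (mem_Ico.1 hi).2
    simp only [oo, qq, zz, UU, show i < n + 3 by omega, show i + 1 < n + 3 by omega,
      show i + 2 < n + 3 by omega, decide_true, Bool.true_and]
    rw [show i + 1 + 1 = i + 2 from rfl, show i + 1 + 2 = i + 3 from rfl]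
    generalize p i = x, p (i + 1) = y, p (i + 2) = z, p (i + 3) = w
    revert x y z w
    decide
  rw [sum_add_distrib, sum_add_distrib, sum_Ico_add' (oo p) 1 n 1, sum_Ico_add' (qq p) 1 n 1,
    sum_Ico_succ_top hn, sum_Ico_succ_top hn, sum_eq_sum_Ico_succ_bot (by omega)] at h1
  simp only [Nat.reduceAdd] at h1
  omega

/-- From the finite check to arbitrary residual counts. -/
lemma stepOK.use {s s' lk rk rk' A B A' B' Ep En qe ze ye e : ℕ}
    (h : stepOK s s' lk rk rk' A B A' B' Ep En qe ze ye e) {o q z : ℕ} {c Low : ℤ}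
    (hc : 3 * c + En + z = Ep + o + 2 * q) (he : e + o + q + z ≠ 0)
    (hI : 2 ≤ 2 * Low + (q + qe + tb s lk rk A B (min 2 (ze + z)) : ℕ)) :
    2 ≤ 2 * (Low + c) + (z + tb s' ((lk + 1) % 3) rk' A' B' (min 2 (ye + (2 * o + q))) : ℕ) := by
  obtain ⟨z', h1, h2, h3, h4⟩ : ∃ z' < 5, z' ≤ z ∧ z' % 3 = z % 3 ∧ min 2 z' = min 2 z := by
    by_cases c : z < 2
    · exact ⟨z, by omega, by omega⟩
    · exact ⟨2 + (z - 2) % 3, by omega, by omega⟩
  obtain ⟨y', k1, k2, k3, k4⟩ : ∃ y' < 8, y' ≤ 2 * o + q ∧ y' % 6 = (2 * o + q) % 6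
      ∧ min 2 y' = min 2 (2 * o + q) := by
    by_cases c : 2 * o + q < 2
    · exact ⟨2 * o + q, by omega, by omega⟩
    · exact ⟨2 + (2 * o + q - 2) % 6, by omega, by omega⟩
  have := h z' h1 y' k1 (by omega) (by omega)
  rw [show min 2 (ze + z') = min 2 (ze + z) by omega,
    show min 2 (ye + y') = min 2 (ye + (2 * o + q)) by omega] at this
  omega

end Pool.Agent.Lib.MP_2eb2b4_co
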