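import Pool.Agent.Lib.MP_2eb2b4_co.Defs
import Pool.Agent.Lib.MP_2eb2b4_co.Count

/-!
Initial segments of the 2-3 grid as lattice points, and the corner patch.
-/

namespace Pool.Agent.Lib.MP_2eb2b4_co

open Finset

lemma A_infinite : (Set.ofPred fun m => m ∈ A).Infinite := by
  apply Set.infinite_of_injective_forall_mem (f := fun i : ℕ => 2 ^ i)
  · exact Nat.pow_right_injective (le_refl 2)
  · intro i
    exact ⟨i, 0, by simp⟩

open Classical in
/-- The number of elements of A up to M. -/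
noncomputable def idx (M : ℕ) : ℕ := Nat.count (fun m => m ∈ A) (M + 1)

lemma mem_An_idx {M x : ℕ} : x ∈ An (idx M) ↔ x ∈ A ∧ x ≤ M := by
  classical
  simp only [An, mem_image, mem_Icc, a, idx]
  constructor
  · rintro ⟨n, ⟨h1, h2⟩, rfl⟩
    refine ⟨Nat.nth_mem_of_infinite A_infinite _, ?_⟩
    have : Nat.nth (fun m => m ∈ A) (n - 1) < M + 1 := Nat.nth_lt_of_lt_count (by omega)
    omega
  · rintro ⟨h1, h2⟩
    refine ⟨Nat.count (fun m => m ∈ A) x + 1, ⟨by omega, ?_⟩, ?_⟩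
    · have h3 : Nat.count (fun m => m ∈ A) (x + 1) ≤ Nat.count (fun m => m ∈ A) (M + 1) :=
        Nat.count_monotone _ (by omega)
      have h4 : Nat.count (fun m => m ∈ A) (x + 1) = Nat.count (fun m => m ∈ A) x + 1 := by
        rw [Nat.count_succ, if_pos h1]
      omega
    · simp only [Nat.add_sub_cancel]
      exact Nat.nth_count h1

lemma cell_mem_An {M i j : ℕ} : 2 ^ i * 3 ^ j ∈ An (idx M) ↔ 2 ^ i * 3 ^ j ≤ M := by
  rw [mem_An_idx]
  exact and_iff_right ⟨i, j, rfl⟩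

lemma le_idx {K M : ℕ} (h : Nat.nth (fun m => m ∈ A) K ≤ M) : K < idx M := by
  classical
  exact (Nat.lt_nth_iff_count_lt A_infinite).2 (Nat.lt_succ_of_le h)

/-- The number 2^i 3^j. -/
def val (p : ℕ × ℕ) : ℕ := 2 ^ p.1 * 3 ^ p.2

lemma val_inj : Function.Injective val := by
  rintro ⟨i, j⟩ ⟨u, v⟩ h
  simp only [val] at h
  have c : ∀ x y : ℕ, Nat.Coprime (2 ^ x) (3 ^ y) := fun x y =>
    Nat.Coprime.pow _ _ (by norm_num)
  have h1 : 2 ^ i ∣ 2 ^ u := (c i v).dvd_of_dvd_mul_right (h ▸ dvd_mul_right _ _)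
  have h2 : 2 ^ u ∣ 2 ^ i := (c u j).dvd_of_dvd_mul_right (h ▸ dvd_mul_right _ _)
  have h3 : i = u := Nat.pow_right_injective (le_refl 2) (Nat.dvd_antisymm h1 h2)
  subst h3
  have h4 : 3 ^ j = 3 ^ v := Nat.eq_of_mul_eq_mul_left (by positivity) h
  rw [Nat.pow_right_injective (by norm_num : 2 ≤ 3) h4]

lemma ncard_B (M : ℕ) {k : ℕ} (hk : k < 3) : (B (idx M) k).ncard = (cls M k).card := by
  have : B (idx M) k = ((cls M k).image val : Finset ℕ) := by
    ext x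
    simp only [B, Set.mem_ofPred_eq, coe_image, Set.mem_image, mem_coe, mem_cls, val, Prod.exists]
    constructor
    · rintro ⟨h1, i, j, rfl, h3⟩
      refine ⟨i, j, ⟨cell_mem_An.1 h1, ?_⟩, rfl⟩
      unfold Int.ModEq at h3
      omega
    · rintro ⟨i, j, ⟨h1, h2⟩, rfl⟩
      refine ⟨cell_mem_An.2 h1, i, j, rfl, ?_⟩
      unfold Int.ModEq
      omega
  rw [this, Set.ncard_coe_finset, card_image_of_injective _ val_inj]

lemma f_le {M : ℕ} (P : Finset (ℕ × ℕ)) (hP : P ⊆ cells M)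
    (hit : ∀ i j, 2 ^ i * 3 ^ (j + 1) ≤ M → (i, j) ∈ P ∨ (i + 1, j) ∈ P ∨ (i, j + 1) ∈ P) :
    f (idx M) ≤ P.card := by
  refine le_trans (Nat.sInf_le ⟨P.image val, ?_, ?_, rfl⟩) card_image_le
  · intro x hx
    obtain ⟨p, hp, rfl⟩ := mem_image.1 hx
    exact cell_mem_An.2 (mem_cells.1 (hP hp))
  · intro i j _ _ h3
    rcases hit i j (cell_mem_An.1 h3) with h | h | h
    · exact Or.inl (mem_image_of_mem val h)
    · exact Or.inr (Or.inl (mem_image_of_mem val h))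
    · exact Or.inr (Or.inr (mem_image_of_mem val h))

lemma Bt_empty {m M : ℕ} (h1 : 1536 * 8 ^ m ≤ M) (h2 : M < 1728 * 8 ^ m) (k : ℕ) :
    Bt (idx M) k = ∅ := by
  ext x
  simp only [Bt, Set.mem_ofPred_eq, Set.mem_empty_iff_false, iff_false]
  rintro ⟨hx, i, hi, rfl, -, h3⟩
  apply h3
  have hx' := (mem_An_idx.1 hx).2
  have e : 8 ^ m = 2 ^ (3 * m) := by rw [pow_mul]; norm_num
  have h4 : i < 3 * m + 11 := by
    apply (Nat.pow_lt_pow_iff_right (by norm_num : 1 < 2)).1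
    rw [pow_add, ← e]
    omega
  have h5 : 2 ^ (i - 1) ≤ 2 ^ (3 * m + 9) := Nat.pow_le_pow_right (by norm_num) (by omega)
  rw [pow_add, ← e] at h5
  exact mem_An_idx.2 ⟨⟨i - 1, 1, by norm_num⟩, by omega⟩

lemma patch {m M : ℕ} (h1 : 1536 * 8 ^ m ≤ M) (h2 : M < 1728 * 8 ^ m) :
    f (idx M) + 1 ≤ (cls M 2).card := by
  have e : ∀ c j, 2 ^ (3 * m + c) * 3 ^ j = 2 ^ c * 3 ^ j * 8 ^ m := by
    intro c j
    rw [pow_add, pow_mul]
    ring
  let X : Finset (ℕ × ℕ) := {(3 * m + 8, 0), (3 * m + 9, 1), (3 * m + 7, 2)}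
  let Y : Finset (ℕ × ℕ) := {(3 * m + 7, 1), (3 * m + 9, 0)}
  have hX : X ⊆ cls M 2 := by
    intro p hp
    simp only [X, mem_insert, mem_singleton] at hp
    rcases hp with rfl | rfl | rfl <;> refine mem_cls.2 ⟨?_, by omega⟩ <;>
      simp only [e] <;> omega
  have cX : X.card = 3 := by
    rw [card_eq_three]
    exact ⟨_, _, _, by simp, by simp, by simp, rfl⟩
  have cY : Y.card ≤ 2 := card_le_two
  have hc := card_sdiff_add_card_eq_card hX
  have hu := card_union_le (cls M 2 \ X) Y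
  have := f_le (M := M) (cls M 2 \ X ∪ Y) ?_ ?_
  · omega
  · intro p hp
    rcases mem_union.1 hp with hp | hp
    · exact (mem_filter.1 (mem_sdiff.1 hp).1).1
    · simp only [Y, mem_insert, mem_singleton] at hp
      rcases hp with rfl | rfl <;> refine mem_cells.2 ?_ <;> simp only [e] <;> omega
  · intro i j hij
    have a0 : 2 ^ i * 3 ^ j ≤ M := by rw [pow_succ, ← mul_assoc] at hij; omega
    have a1 : 2 ^ (i + 1) * 3 ^ j ≤ M := by
      rw [pow_succ, ← mul_assoc] at hij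
      rw [pow_succ, mul_right_comm]
      omega
    have n1 : ¬ (i = 3 * m + 9 ∧ j = 1) := by
      rintro ⟨rfl, rfl⟩; rw [e] at hij; omega
    have n2 : ¬ (i = 3 * m + 8 ∧ j = 1) := by
      rintro ⟨rfl, rfl⟩; rw [e] at hij; omega
    have n3 : ¬ (i = 3 * m + 7 ∧ j = 2) := by
      rintro ⟨rfl, rfl⟩; rw [e] at hij; omega
    have n4 : ¬ (i = 3 * m + 6 ∧ j = 2) := by
      rintro ⟨rfl, rfl⟩; rw [e] at hij; omega
    simp only [X, Y, mem_union, mem_sdiff, mem_cls, mem_insert, mem_singleton, Prod.mk.injEq,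
      a0, a1, hij, true_and]
    clear hu hc cY cX hX a0 a1 hij h1 h2 e
    obtain c | c | c : (i + 2 * j) % 3 = 2 ∨ (i + 1 + 2 * j) % 3 = 2
        ∨ (i + 2 * (j + 1)) % 3 = 2 := by omega
    · by_cases x : i = 3 * m + 8 ∧ j = 0
      · exact Or.inr (Or.inl (Or.inr (by omega)))
      · exact Or.inl (Or.inl ⟨c, by omega⟩)
    · by_cases x : i = 3 * m + 7 ∧ j = 0
      · exact Or.inr (Or.inr (Or.inr (by omega)))
      · exact Or.inr (Or.inl (Or.inl ⟨c, by omega⟩))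
    · by_cases x : i = 3 * m + 9 ∧ j = 0 ∨ i = 3 * m + 7 ∧ j = 1
      · exact Or.inl (Or.inr (by omega))
      · exact Or.inr (Or.inr (Or.inl ⟨c, by omega⟩))

end Pool.Agent.Lib.MP_2eb2b4_co
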