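import Pool.Agent.Lib.MP_2eb2b4_co.DefsC
import Pool.Agent.Lib.MP_2eb2b4_co.Seg

/-!
The upper bound f n ≤ g n k, and the reduction of the exact formula to a lattice lower bound.
-/

namespace Pool.Agent.Lib.MP_2eb2b4_co

open Finset

lemma mem_Bt {M k x : ℕ} : x ∈ Bt (idx M) k ↔
    ∃ i, x = 2 ^ (i + 1) ∧ (i + 1) % 3 = k % 3 ∧ 2 ^ i * 2 ≤ M ∧ M < 2 ^ i * 3 := by
  have e : ∀ i, 2 ^ i * 3 ∈ An (idx M) ↔ 2 ^ i * 3 ≤ M := fun i => by
    simpa using cell_mem_An (M := M) (i := i) (j := 1)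
  have e0 : ∀ i, 2 ^ i ∈ An (idx M) ↔ 2 ^ i ≤ M := fun i => by
    simpa using cell_mem_An (M := M) (i := i) (j := 0)
  simp only [Bt, Set.mem_ofPred_eq, e, not_le]
  constructor
  · rintro ⟨hx, i, hi, rfl, h2, h3⟩
    obtain ⟨t, rfl⟩ : ∃ t, i = t + 1 := ⟨i - 1, by omega⟩
    exact ⟨t, rfl, h2, (e0 _).1 hx, h3⟩
  · rintro ⟨i, rfl, h1, h2, h3⟩
    exact ⟨(e0 _).2 h2, i + 1, by omega, rfl, h1, h3⟩

lemma mem_C {M k x : ℕ} : x ∈ C (idx M) k ↔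
    ∃ i, x = 2 ^ (i + 3) * 3 ∧ (i + 2) % 3 = k % 3 ∧ 2 ^ i * 24 ≤ M ∧ M < 2 ^ i * 27 := by
  have e : ∀ i, 2 ^ i * 27 ∈ An (idx M) ↔ 2 ^ i * 27 ≤ M := fun i => by
    simpa using cell_mem_An (M := M) (i := i) (j := 3)
  have e1 : ∀ i, 2 ^ (i + 3) * 3 ∈ An (idx M) ↔ 2 ^ i * 24 ≤ M := fun i => by
    have := cell_mem_An (M := M) (i := i + 3) (j := 1)
    rw [pow_one] at this
    rw [this, pow_add]
    omega
  simp only [C, Set.mem_ofPred_eq, e, not_le]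
  constructor
  · rintro ⟨hx, i, rfl, h2, h3⟩
    exact ⟨i, rfl, h2, (e1 _).1 hx, h3⟩
  · rintro ⟨i, rfl, h1, h2, h3⟩
    exact ⟨(e1 _).2 h2, i, rfl, h1, h3⟩

lemma log_uniq {M i t : ℕ} (h1 : 2 ^ i ≤ M) (h2 : M < 2 ^ i * 2) (h3 : 2 ^ t ≤ M)
    (h4 : M < 2 ^ t * 2) : t = i := by
  have a : i < t + 1 :=
    (Nat.pow_lt_pow_iff_right (by norm_num : 1 < 2)).1 (by rw [pow_succ]; omega)
  have b : t < i + 1 :=
    (Nat.pow_lt_pow_iff_right (by norm_num : 1 < 2)).1 (by rw [pow_succ]; omega)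
  omega

lemma Bt_eq {M k i : ℕ} (hk : (i + 1) % 3 = k % 3) (h1 : 2 ^ i * 2 ≤ M) (h2 : M < 2 ^ i * 3) :
    Bt (idx M) k = {2 ^ (i + 1)} := by
  ext x
  rw [mem_Bt, Set.mem_singleton_iff]
  refine ⟨?_, fun h => ⟨i, h, hk, h1, h2⟩⟩
  rintro ⟨t, rfl, -, h3, h4⟩
  have e1 : 2 ^ (i + 1) = 2 ^ i * 2 := pow_succ _ _
  have e2 : 2 ^ (t + 1) = 2 ^ t * 2 := pow_succ _ _
  rw [log_uniq (M := M) (i := i + 1) (t := t + 1) (by omega) (by omega) (by omega) (by omega)]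

lemma C_eq {M k i : ℕ} (hk : (i + 2) % 3 = k % 3) (h1 : 2 ^ i * 24 ≤ M) (h2 : M < 2 ^ i * 27) :
    C (idx M) k = {2 ^ (i + 3) * 3} := by
  ext x
  rw [mem_C, Set.mem_singleton_iff]
  refine ⟨?_, fun h => ⟨i, h, hk, h1, h2⟩⟩
  rintro ⟨t, rfl, -, h3, h4⟩
  have e1 : 2 ^ (i + 4) = 2 ^ i * 16 := by ring
  have e2 : 2 ^ (t + 4) = 2 ^ t * 16 := by ring
  have : t + 4 = i + 4 := log_uniq (M := M) (by omega) (by omega) (by omega) (by omega)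
  rw [(by omega : t = i)]

lemma two_le {M i j : ℕ} (h : 2 ^ i * 3 ^ (j + 1) ≤ M) :
    2 ^ i * 3 ^ j ≤ M ∧ 2 ^ (i + 1) * 3 ^ j ≤ M := by
  rw [pow_succ, ← mul_assoc] at h
  rw [pow_succ, mul_right_comm]
  omega

lemma f_le_cls (M : ℕ) {k : ℕ} (hk : k < 3) : f (idx M) ≤ (cls M k).card := by
  refine f_le _ (filter_subset _ _) fun i j hij => ?_
  simp only [mem_cls, (two_le hij).1, (two_le hij).2, hij, true_and]
  omega

lemma patch_t {M k t : ℕ} (hk : (t + 1) % 3 = k) (h1 : 2 ^ t * 2 ≤ M) (h2 : M < 2 ^ t * 3) :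
    f (idx M) + 1 ≤ (cls M k).card := by
  have hm : (t + 1, 0) ∈ cls M k := mem_cls.2 ⟨by simpa [pow_succ] using h1, by omega⟩
  rw [← card_erase_add_one hm, add_le_add_iff_right]
  refine f_le _ ((erase_subset _ _).trans (filter_subset _ _)) fun i j hij => ?_
  have n1 : ¬ (i = t + 1 ∧ j = 0) := by
    rintro ⟨rfl, rfl⟩; omega
  have n2 : ¬ (i = t ∧ j = 0) := by
    rintro ⟨rfl, rfl⟩; omega
  simp only [mem_erase, mem_cls, (two_le hij).1, (two_le hij).2, hij, true_and, Ne, Prod.mk.injEq]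
  clear hij h1 h2 hm
  omega

lemma patch_c {M k t : ℕ} (hk : (t + 2) % 3 = k) (h1 : 2 ^ t * 24 ≤ M) (h2 : M < 2 ^ t * 27) :
    f (idx M) + 1 ≤ (cls M k).card := by
  have e : ∀ c j, 2 ^ (t + c) * 3 ^ j = 2 ^ t * (2 ^ c * 3 ^ j) := by
    intro c j
    rw [pow_add, mul_assoc]
  let X : Finset (ℕ × ℕ) := {(t + 2, 0), (t + 3, 1), (t + 1, 2)}
  let Y : Finset (ℕ × ℕ) := {(t + 1, 1), (t + 3, 0)}
  have hX : X ⊆ cls M k := by
    intro p hp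
    simp only [X, mem_insert, mem_singleton] at hp
    rcases hp with rfl | rfl | rfl <;> refine mem_cls.2 ⟨?_, by omega⟩ <;>
      simp only [e] <;> omega
  have cX : X.card = 3 := by
    rw [card_eq_three]
    exact ⟨_, _, _, by simp, by simp, by simp, rfl⟩
  have cY : Y.card ≤ 2 := card_le_two
  have hc := card_sdiff_add_card_eq_card hX
  have hu := card_union_le (cls M k \ X) Y
  have := f_le (M := M) (cls M k \ X ∪ Y) ?_ ?_
  · omega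
  · intro p hp
    rcases mem_union.1 hp with hp | hp
    · exact (mem_filter.1 (mem_sdiff.1 hp).1).1
    · simp only [Y, mem_insert, mem_singleton] at hp
      rcases hp with rfl | rfl <;> refine mem_cells.2 ?_ <;> simp only [e] <;> omega
  · intro i j hij
    have n1 : ¬ (i = t + 3 ∧ j = 1) := by
      rintro ⟨rfl, rfl⟩; rw [e] at hij; omega
    have n2 : ¬ (i = t + 2 ∧ j = 1) := by
      rintro ⟨rfl, rfl⟩; rw [e] at hij; omega
    have n3 : ¬ (i = t + 1 ∧ j = 2) := by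
      rintro ⟨rfl, rfl⟩; rw [e] at hij; omega
    have n4 : ¬ (i = t ∧ j = 2) := by
      rintro ⟨rfl, rfl⟩; omega
    simp only [X, Y, mem_union, mem_sdiff, mem_cls, mem_insert, mem_singleton, Prod.mk.injEq,
      (two_le hij).1, (two_le hij).2, hij, true_and]
    clear hu hc cY cX hX hij h1 h2 e
    obtain c | c | c : (i + 2 * j) % 3 = k ∨ (i + 1 + 2 * j) % 3 = k
        ∨ (i + 2 * (j + 1)) % 3 = k := by omega
    · by_cases x : i = t + 2 ∧ j = 0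
      · exact Or.inr (Or.inl (Or.inr (by omega)))
      · exact Or.inl (Or.inl ⟨c, by omega⟩)
    · by_cases x : i = t + 1 ∧ j = 0
      · exact Or.inr (Or.inr (Or.inr (by omega)))
      · exact Or.inr (Or.inl (Or.inl ⟨c, by omega⟩))
    · by_cases x : i = t + 3 ∧ j = 0 ∨ i = t + 1 ∧ j = 1
      · exact Or.inl (Or.inr (by omega))
      · exact Or.inr (Or.inr (Or.inl ⟨c, by omega⟩))

/-- The value of g in the three cases. -/
lemma g_cases (M : ℕ) {k : ℕ} (hk : k < 3) :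
    (g (idx M) k = (cls M k).card ∧
      (¬ ∃ t, (t + 1) % 3 = k ∧ 2 ^ t * 2 ≤ M ∧ M < 2 ^ t * 3) ∧
      ¬ ∃ t, (t + 2) % 3 = k ∧ 2 ^ t * 24 ≤ M ∧ M < 2 ^ t * 27) ∨
    (g (idx M) k + 1 = (cls M k).card ∧
      ((∃ t, (t + 1) % 3 = k ∧ 2 ^ t * 2 ≤ M ∧ M < 2 ^ t * 3) ∨
      ∃ t, (t + 2) % 3 = k ∧ 2 ^ t * 24 ≤ M ∧ M < 2 ^ t * 27)) := by
  have hB : (¬ ∃ t, (t + 1) % 3 = k ∧ 2 ^ t * 2 ≤ M ∧ M < 2 ^ t * 3) → Bt (idx M) k = ∅ := fun h =>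
    Set.eq_empty_of_forall_notMem fun x hx => by
      obtain ⟨t, -, h1, h2⟩ := mem_Bt.1 hx
      exact h ⟨t, by omega, h2⟩
  have hC : (¬ ∃ t, (t + 2) % 3 = k ∧ 2 ^ t * 24 ≤ M ∧ M < 2 ^ t * 27) → C (idx M) k = ∅ := fun h =>
    Set.eq_empty_of_forall_notMem fun x hx => by
      obtain ⟨t, -, h1, h2⟩ := mem_C.1 hx
      exact h ⟨t, by omega, h2⟩
  rw [g, ncard_B M hk]
  by_cases h1 : ∃ t, (t + 1) % 3 = k ∧ 2 ^ t * 2 ≤ M ∧ M < 2 ^ t * 3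
  · refine Or.inr ⟨?_, Or.inl h1⟩
    obtain ⟨t, a, b, c⟩ := h1
    rw [Bt_eq (by omega) b c, hC, Set.ncard_singleton, Set.ncard_empty]
    · omega
    · rintro ⟨s, -, d, e⟩
      have e1 : 2 ^ (s + 4) = 2 ^ s * 16 := by ring
      have e2 : 2 ^ (t + 1) = 2 ^ t * 2 := by ring
      clear hB hC
      have : s + 4 = t + 1 := log_uniq (M := M) (by omega) (by omega) (by omega) (by omega)
      obtain rfl : t = s + 3 := by omega
      have e3 : 2 ^ (s + 3) = 2 ^ s * 8 := by ring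
      omega
  · by_cases h2 : ∃ t, (t + 2) % 3 = k ∧ 2 ^ t * 24 ≤ M ∧ M < 2 ^ t * 27
    · refine Or.inr ⟨?_, Or.inr h2⟩
      obtain ⟨t, a, b, c⟩ := h2
      rw [C_eq (by omega) b c, hB h1, Set.ncard_singleton, Set.ncard_empty]
      omega
    · refine Or.inl ⟨?_, h1, h2⟩
      rw [hB h1, hC h2, Set.ncard_empty]
      omega

theorem upper (M : ℕ) {k : ℕ} (hk : k < 3) : (f (idx M) : ℤ) ≤ g (idx M) k := by
  rcases g_cases M hk with ⟨h, -⟩ | ⟨h, ⟨t, a, b, c⟩ | ⟨t, a, b, c⟩⟩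
  · have := f_le_cls M hk
    omega
  · have := patch_t a b c
    omega
  · have := patch_c a b c
    omega

lemma exists_min (M : ℕ) : ∃ P : Finset (ℕ × ℕ), P ⊆ cells M ∧
    (∀ i j, 2 ^ i * 3 ^ (j + 1) ≤ M → (i, j) ∈ P ∨ (i + 1, j) ∈ P ∨ (i, j + 1) ∈ P) ∧
    P.card ≤ f (idx M) := by
  obtain ⟨H, -, h2, h3⟩ : f (idx M) ∈
      {c | ∃ H : Finset ℕ, H ⊆ An (idx M) ∧ Hits (idx M) H ∧ H.card = c} :=
    Nat.sInf_mem ⟨_, An (idx M), Subset.rfl, fun _ _ h _ _ => Or.inl h, rfl⟩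
  refine ⟨(cells M).filter fun p => val p ∈ H, filter_subset _ _, fun i j hij => ?_, ?_⟩
  · simp only [mem_filter, mem_cells, (two_le hij).1, (two_le hij).2, hij, true_and, val]
    exact h2 i j (cell_mem_An.2 (two_le hij).1) (cell_mem_An.2 (two_le hij).2) (cell_mem_An.2 hij)
  · rw [← h3]
    exact card_le_card_of_injOn val (fun p hp => (mem_filter.1 (mem_coe.1 hp)).2) val_inj.injOn

lemma idx_a {n : ℕ} (hn : 1 ≤ n) : idx (a n) = n := by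
  classical
  rw [idx, a, Nat.count_nth_succ_of_infinite A_infinite]
  omega

lemma a_pos (n : ℕ) : 1 ≤ a n := by
  obtain ⟨i, j, h⟩ : a n ∈ A := Nat.nth_mem_of_infinite A_infinite _
  rw [h]
  exact Nat.succ_le_of_lt (by positivity)

/-- The exact formula follows from the lattice lower bound. -/
theorem glue (low : ∀ M, 1 ≤ M → ∀ P : Finset (ℕ × ℕ), P ⊆ cells M →
      (∀ i j, 2 ^ i * 3 ^ (j + 1) ≤ M → (i, j) ∈ P ∨ (i + 1, j) ∈ P ∨ (i, j + 1) ∈ P) →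
      ∃ k < 3, (cls M k).card ≤ P.card ∨ ((cls M k).card ≤ P.card + 1 ∧
        ((∃ t, (t + 1) % 3 = k ∧ 2 ^ t * 2 ≤ M ∧ M < 2 ^ t * 3) ∨
        ∃ t, (t + 2) % 3 = k ∧ 2 ^ t * 24 ≤ M ∧ M < 2 ^ t * 27)))
    {n : ℕ} (hn : 1 ≤ n) : (f n : ℤ) = min (g n 0) (min (g n 1) (g n 2)) := by
  rw [← idx_a hn]
  have u0 := upper (a n) (k := 0) (by norm_num)
  have u1 := upper (a n) (k := 1) (by norm_num)
  have u2 := upper (a n) (k := 2) (by norm_num)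
  obtain ⟨P, h1, h2, h3⟩ := exists_min (a n)
  obtain ⟨k, hk, h⟩ := low _ (a_pos n) P h1 h2
  have : g (idx (a n)) k ≤ f (idx (a n)) := by
    rcases g_cases (a n) hk with ⟨e, n1, n2⟩ | ⟨e, -⟩
    · rcases h with h | ⟨-, h | h⟩
      · omega
      · exact absurd h n1
      · exact absurd h n2
    · rcases h with h | ⟨h, -⟩ <;> omega
  interval_cases k <;> omega

end Pool.Agent.Lib.MP_2eb2b4_co
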